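import Pool.Agent.HexS.OrbS

/-!
# Stability and maximizing measures for every coefficient
-/

open MeasureTheory Complex ComplexConjugate
open Pool.Agent.Hex

namespace Pool.Agent.HexS

/-- Retraction to the preimage of a finite set. -/
theorem retract_pre {n : ℤ} (hn : n ≠ 0) (Z : Finset (AddCircle (1 : ℝ))) (hne : Z.Nonempty)
    (h2 : ∀ z ∈ Z, (2 : ℕ) • z ∈ Z) (h3 : ∀ z ∈ Z, (3 : ℕ) • z ∈ Z) :
    ∃ C : ℝ, 0 ≤ C ∧ ∀ μ : Measure (AddCircle (1 : ℝ)), Inv μ → ∃ ρ : Measure (AddCircle (1 : ℝ)), Inv ρ ∧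
      (ρ.map fun x => n • x) {x | x ∉ Z} = 0 ∧ ∀ (K : NNReal) (g : AddCircle (1 : ℝ) → ℝ), LipschitzWith K g →
        |∫ x, g x ∂μ - ∫ x, g x ∂ρ| ≤ C * K * ∫ x, Metric.infDist (n • x) (Z : Set (AddCircle (1 : ℝ))) ∂μ := by
  obtain ⟨Y, hYne, hY, hYd⟩ := pre_exists hn Z hne
  have hY2 : ∀ y ∈ Y, (2 : ℕ) • y ∈ Y := by
    intro y hy
    rw [hY] at hy ⊢
    rw [smul_comm]
    exact h2 _ hy
  have hY3 : ∀ y ∈ Y, (3 : ℕ) • y ∈ Y := by
    intro y hy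
    rw [hY] at hy ⊢
    rw [smul_comm]
    exact h3 _ hy
  obtain ⟨C, hC, h⟩ := retract Y hYne hY2 hY3
  refine ⟨C, hC, fun μ hμ => ?_⟩
  have hP := hμ.1
  obtain ⟨ρ, hρ, hρY, hρg⟩ := h μ hμ
  refine ⟨ρ, hρ, ?_, fun K g hg => ?_⟩
  · have hm : Measurable fun x : AddCircle (1 : ℝ) => n • x := (continuous_zsmul n).measurable
    have hms : MeasurableSet {x : AddCircle (1 : ℝ) | x ∉ Z} := Z.measurableSet.compl
    rw [Measure.map_apply hm hms]
    have : (fun x : AddCircle (1 : ℝ) => n • x) ⁻¹' {x | x ∉ Z} = {x | x ∉ Y} := by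
      ext x
      simp only [Set.mem_preimage, Set.mem_ofPred_eq, hY]
    rw [this, hρY]
  · refine (hρg K g hg).trans (mul_le_mul_of_nonneg_left ?_ (by positivity))
    refine integral_mono (mea_integrable (Metric.continuous_infDist_pt _))
      (mea_integrable ((Metric.continuous_infDist_pt _).comp (continuous_zsmul n))) fun x => hYd x

/-- Stability at a side, for the measure itself. -/
theorem stab_all {v w : ℂ} {Z₁ Z₂ : Finset (AddCircle (1 : ℝ))} {L₁ L₂ : ℕ}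
    {ν₁ ν₂ : Measure (AddCircle (1 : ℝ))} [IsProbabilityMeasure ν₁] [IsProbabilityMeasure ν₂]
    (O₁ : Orb Z₁ L₁ ν₁) (O₂ : Orb Z₂ L₂ ν₂) (hs : Stab v w ν₁ ν₂) {n : ℤ} (hn : n ≠ 0) :
    ∃ C : ℝ, 0 ≤ C ∧ ∀ μ : Measure (AddCircle (1 : ℝ)), Inv μ → ∃ ρ : Measure (AddCircle (1 : ℝ)), Inv ρ ∧
      (∃ θ ∈ Set.Icc (0 : ℝ) 1, (ρ.map fun x => n • x) = ENNReal.ofReal θ • ν₁ + ENNReal.ofReal (1 - θ) • ν₂) ∧
      ∀ (K : NNReal) (g : AddCircle (1 : ℝ) → ℝ), LipschitzWith K g →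
        |∫ x, g x ∂μ - ∫ x, g x ∂ρ| ≤ C * K * Metric.infDist (coef μ n) (segment ℝ v w) := by
  classical
  have hne : (Z₁ ∪ Z₂).Nonempty := O₁.ne.mono Finset.subset_union_left
  obtain ⟨C₁, hC₁, h1⟩ := retract_pre hn (Z₁ ∪ Z₂) hne
    (fun z hz => by
      rcases Finset.mem_union.mp hz with h | h
      · exact Finset.mem_union_left _ (O₁.two z h)
      · exact Finset.mem_union_right _ (O₂.two z h))
    (fun z hz => by
      rcases Finset.mem_union.mp hz with h | h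
      · exact Finset.mem_union_left _ (O₁.three z h)
      · exact Finset.mem_union_right _ (O₂.three z h))
  obtain ⟨C₂, hC₂, h2⟩ := hs
  refine ⟨C₁ * C₂, by positivity, fun μ hμ => ?_⟩
  obtain ⟨ρ, hρ, hρZ, hρg⟩ := h1 μ hμ
  obtain ⟨θ', -, h3⟩ := h2 n μ hμ
  have hlip : LipschitzWith 1 fun x : AddCircle (1 : ℝ) =>
      Metric.infDist x ((Z₁ ∪ Z₂ : Finset (AddCircle (1 : ℝ))) : Set (AddCircle (1 : ℝ))) :=
    Metric.lipschitz_infDist_pt _
  have h4 := h3 1 _ hlip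
  have z1 : ∫ x, Metric.infDist x ((Z₁ ∪ Z₂ : Finset (AddCircle (1 : ℝ))) : Set (AddCircle (1 : ℝ))) ∂ν₁ = 0 :=
    O₁.zero _ fun z hz => Metric.infDist_zero_of_mem (Finset.mem_coe.mpr (Finset.mem_union_left _ hz))
  have z2 : ∫ x, Metric.infDist x ((Z₁ ∪ Z₂ : Finset (AddCircle (1 : ℝ))) : Set (AddCircle (1 : ℝ))) ∂ν₂ = 0 :=
    O₂.zero _ fun z hz => Metric.infDist_zero_of_mem (Finset.mem_coe.mpr (Finset.mem_union_right _ hz))
  rw [z1, z2, mul_zero, mul_zero, add_zero, sub_zero] at h4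
  have h5 := (le_abs_self _).trans h4
  refine ⟨ρ, hρ, ?_, fun K g hg => ?_⟩
  · have hτ := fin_push hρ n
    have hPτ := hτ.1
    obtain ⟨θ, hθ, hm⟩ := orb_mix O₁ O₂ hτ (by
      rw [← hρZ]
      congr 1
      ext x
      simp only [Set.mem_ofPred_eq, Finset.mem_union, not_or])
    exact ⟨θ, hθ, mix_of hθ.1 hθ.2 fun K g hg => hm g hg.continuous⟩
  · refine (hρg K g hg).trans ?_
    have h6 : C₁ * K * ∫ x, Metric.infDist (n • x)
        ((Z₁ ∪ Z₂ : Finset (AddCircle (1 : ℝ))) : Set (AddCircle (1 : ℝ))) ∂μ ≤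
        C₁ * K * (C₂ * (1 : NNReal) * Metric.infDist (coef μ n) (segment ℝ v w)) :=
      mul_le_mul_of_nonneg_left h5 (by positivity)
    refine h6.trans (le_of_eq ?_)
    push_cast
    ring

/-- Stability at a vertex, for the measure itself. -/
theorem stabV_all {v : ℂ} {Z₁ : Finset (AddCircle (1 : ℝ))} {L₁ : ℕ} {ν₁ : Measure (AddCircle (1 : ℝ))}
    [IsProbabilityMeasure ν₁] (O₁ : Orb Z₁ L₁ ν₁) (hs : StabV v ν₁) {n : ℤ} (hn : n ≠ 0) :
    ∃ C : ℝ, 0 ≤ C ∧ ∀ μ : Measure (AddCircle (1 : ℝ)), Inv μ → ∃ ρ : Measure (AddCircle (1 : ℝ)), Inv ρ ∧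
      (ρ.map fun x => n • x) = ν₁ ∧
      ∀ (K : NNReal) (g : AddCircle (1 : ℝ) → ℝ), LipschitzWith K g →
        |∫ x, g x ∂μ - ∫ x, g x ∂ρ| ≤ C * K * ‖coef μ n - v‖ := by
  obtain ⟨C₁, hC₁, h1⟩ := retract_pre hn Z₁ O₁.ne O₁.two O₁.three
  obtain ⟨C₂, hC₂, h2⟩ := hs
  refine ⟨C₁ * C₂, by positivity, fun μ hμ => ?_⟩
  obtain ⟨ρ, hρ, hρZ, hρg⟩ := h1 μ hμ
  have hlip : LipschitzWith 1 fun x : AddCircle (1 : ℝ) => Metric.infDist x (Z₁ : Set (AddCircle (1 : ℝ))) :=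
    Metric.lipschitz_infDist_pt _
  have h4 := h2 n μ hμ 1 _ hlip
  have z1 : ∫ x, Metric.infDist x (Z₁ : Set (AddCircle (1 : ℝ))) ∂ν₁ = 0 :=
    O₁.zero _ fun z hz => Metric.infDist_zero_of_mem (Finset.mem_coe.mpr hz)
  rw [z1, sub_zero] at h4
  have h5 := (le_abs_self _).trans h4
  refine ⟨ρ, hρ, ?_, fun K g hg => ?_⟩
  · have hτ := fin_push hρ n
    have hPτ := hτ.1
    obtain ⟨θ, hθ, hm⟩ := orb_mix O₁ O₁ hτ (by
      rw [← hρZ]
      congr 1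
      ext x
      simp only [Set.mem_ofPred_eq, and_self])
    refine meas_ext fun K g hg => ?_
    rw [hm g hg.continuous]
    ring
  · refine (hρg K g hg).trans ?_
    have h6 : C₁ * K * ∫ x, Metric.infDist (n • x) (Z₁ : Set (AddCircle (1 : ℝ))) ∂μ ≤
        C₁ * K * (C₂ * (1 : NNReal) * ‖coef μ n - v‖) :=
      mul_le_mul_of_nonneg_left h5 (by positivity)
    refine h6.trans (le_of_eq ?_)
    push_cast
    ring

/-! ## Maximizing measures -/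

theorem int_Fn {ρ : Measure (AddCircle (1 : ℝ))} [IsProbabilityMeasure ρ] (n : ℤ) (ζ : ℂ)
    {g : AddCircle (1 : ℝ) → ℝ} (hg : Continuous g) :
    ∫ x, ((ζ * fourier n x).re + g x) ∂ρ = (ζ * coef ρ n).re + ∫ x, g x ∂ρ := by
  have i1 : Integrable (fun x : AddCircle (1 : ℝ) => ζ * (fourier n x : ℂ)) ρ :=
    (mea_integrable (fourier n).continuous).const_mul _
  have i1r : Integrable (fun x : AddCircle (1 : ℝ) => (ζ * (fourier n x : ℂ)).re) ρ := i1.re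
  rw [integral_add i1r (mea_integrable hg)]
  congr 1
  unfold coef
  rw [← integral_const_mul]
  exact integral_re i1

theorem coef_mix {ν₁ ν₂ : Measure (AddCircle (1 : ℝ))} [IsProbabilityMeasure ν₁] [IsProbabilityMeasure ν₂]
    {θ : ℝ} (h0 : 0 ≤ θ) (h1 : θ ≤ 1) : coef (ENNReal.ofReal θ • ν₁ + ENNReal.ofReal (1 - θ) • ν₂) 1 =
      θ * coef ν₁ 1 + ((1 - θ : ℝ) : ℂ) * coef ν₂ 1 := by
  unfold coef
  have hi1 : Integrable (fun x : AddCircle (1 : ℝ) => (fourier 1 x : ℂ)) ν₁ :=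
    mea_integrable (fourier 1).continuous
  have hi2 : Integrable (fun x : AddCircle (1 : ℝ) => (fourier 1 x : ℂ)) ν₂ :=
    mea_integrable (fourier 1).continuous
  rw [integral_add_measure (hi1.smul_measure ENNReal.ofReal_ne_top)
    (hi2.smul_measure ENNReal.ofReal_ne_top), integral_smul_measure, integral_smul_measure,
    ENNReal.toReal_ofReal h0, ENNReal.toReal_ofReal (by linarith), Complex.real_smul, Complex.real_smul]

/-- The data of the six orbits, with their sets. -/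
structure SixZ (V : Fin 6 → ℂ) (O : Fin 6 → Measure (AddCircle (1 : ℝ)))
    (Z : Fin 6 → Finset (AddCircle (1 : ℝ))) (L : Fin 6 → ℕ) : Prop extends Six V O where
  orb : ∀ i, Orb (Z i) (L i) (O i)

/-- The conclusion for one function `Re (ζ e(n x)) + g(x)`. -/
def ConclN (O : Fin 6 → Measure (AddCircle (1 : ℝ))) (n : ℤ) (ζ : ℂ) (g : AddCircle (1 : ℝ) → ℝ) : Prop :=
  ∀ μ : Measure (AddCircle (1 : ℝ)), Inv μ → Mix O (μ.map fun x => n • x) ∨
    ∃ ρ : Measure (AddCircle (1 : ℝ)), Inv ρ ∧ Mix O (ρ.map fun x => n • x) ∧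
      ∫ x, ((ζ * fourier n x).re + g x) ∂μ < ∫ x, ((ζ * fourier n x).re + g x) ∂ρ

theorem conclN_peak {V : Fin 6 → ℂ} {O : Fin 6 → Measure (AddCircle (1 : ℝ))}
    {Z : Fin 6 → Finset (AddCircle (1 : ℝ))} {L : Fin 6 → ℕ} (S : SixZ V O Z L) {n : ℤ} (hn : n ≠ 0)
    (ζ : ℂ) (i : Fin 6) (hζ : ∀ j, j ≠ i → (ζ * V j).re < (ζ * V i).re) :
    ∃ ε : NNReal, 0 < ε ∧ ∀ g : AddCircle (1 : ℝ) → ℝ, LipschitzWith ε g → ConclN O n ζ g := by
  have hP := S.prob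
  obtain ⟨κ, hκ0, hκ⟩ := cone V i ζ hζ
  obtain ⟨C, hC, hst⟩ := stabV_all (S.orb i) (S.stabV i) hn
  refine ⟨⟨κ / (2 * (C + 1)), by positivity⟩, ?_, ?_⟩
  · rw [← NNReal.coe_lt_coe]
    change (0 : ℝ) < κ / (2 * (C + 1))
    positivity
  intro g hg μ hμ
  have hPμ := hμ.1
  have hgc := hg.continuous
  obtain ⟨ρ, hρ, hρn, h2⟩ := hst μ hμ
  have hPρ := hρ.1
  have hmix : Mix O (ρ.map fun x => n • x) := by
    rw [hρn]
    exact mix_self i
  have hcρ : coef ρ n = V i := by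
    have := fin_push_coef ρ n 1
    rw [mul_one, hρn, S.coef] at this
    exact this.symm
  rcases eq_or_lt_of_le (norm_nonneg (coef μ n - V i)) with hz | hpos
  · left
    have he : μ = ρ := meas_ext fun K g' hg' => by
      have h3 := h2 K g' hg'
      rw [← hz, mul_zero] at h3
      exact sub_eq_zero.mp (abs_nonpos_iff.mp h3)
    rw [he]
    exact hmix
  · right
    refine ⟨ρ, hρ, hmix, ?_⟩
    rw [int_Fn n ζ hgc, int_Fn n ζ hgc, hcρ]
    have h3 : |∫ x, g x ∂μ - ∫ x, g x ∂ρ| ≤ C * (κ / (2 * (C + 1))) * ‖coef μ n - V i‖ := h2 _ g hg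
    have h4 := (le_abs_self _).trans h3
    have h5 := hκ _ (S.hull n hn μ hμ)
    have h6 : C * (κ / (2 * (C + 1))) * ‖coef μ n - V i‖ < κ * ‖coef μ n - V i‖ := by
      refine mul_lt_mul_of_pos_right ?_ hpos
      rw [mul_div_assoc', div_lt_iff₀ (by positivity)]
      nlinarith
    linarith

theorem conclN_side {V : Fin 6 → ℂ} {O : Fin 6 → Measure (AddCircle (1 : ℝ))}
    {Z : Fin 6 → Finset (AddCircle (1 : ℝ))} {L : Fin 6 → ℕ} (S : SixZ V O Z L) {n : ℤ} (hn : n ≠ 0)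
    (ζ : ℂ) (i : Fin 6) (hi : (ζ * V (i + 1)).re = (ζ * V i).re)
    (hζ : ∀ j, j ≠ i → j ≠ i + 1 → (ζ * V j).re < (ζ * V i).re) :
    ∃ ε : NNReal, 0 < ε ∧ ∀ g : AddCircle (1 : ℝ) → ℝ, LipschitzWith ε g → ConclN O n ζ g := by
  have hP := S.prob
  obtain ⟨κ, hκ0, hκ⟩ := cone2 V i (i + 1) ζ hi hζ
  obtain ⟨C, hC, hst⟩ := stab_all (S.orb i) (S.orb (i + 1)) (S.stab i) hn
  refine ⟨⟨κ / (2 * (C + 1)), by positivity⟩, ?_, ?_⟩
  · rw [← NNReal.coe_lt_coe]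
    change (0 : ℝ) < κ / (2 * (C + 1))
    positivity
  intro g hg μ hμ
  have hPμ := hμ.1
  have hgc := hg.continuous
  obtain ⟨ρ, hρ, ⟨θ, hθ, hρn⟩, h2⟩ := hst μ hμ
  have hPρ := hρ.1
  have hmix : Mix O (ρ.map fun x => n • x) := ⟨i, θ, hθ, hρn⟩
  have hcρ : (ζ * coef ρ n).re = (ζ * V i).re := by
    have h3 := fin_push_coef ρ n 1
    rw [mul_one, hρn, coef_mix hθ.1 hθ.2, S.coef, S.coef] at h3
    rw [← h3, mul_add, Complex.add_re, mul_left_comm, mul_left_comm ζ, Complex.re_ofReal_mul,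
      Complex.re_ofReal_mul, hi]
    ring
  set d : ℝ := Metric.infDist (coef μ n) (segment ℝ (V i) (V (i + 1))) with hd
  have hd0 : 0 ≤ d := Metric.infDist_nonneg
  rcases eq_or_lt_of_le hd0 with hz | hpos
  · left
    have he : μ = ρ := meas_ext fun K g' hg' => by
      have h3 := h2 K g' hg'
      rw [← hz, mul_zero] at h3
      exact sub_eq_zero.mp (abs_nonpos_iff.mp h3)
    rw [he]
    exact hmix
  · right
    refine ⟨ρ, hρ, hmix, ?_⟩
    rw [int_Fn n ζ hgc, int_Fn n ζ hgc, hcρ]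
    have h3 : |∫ x, g x ∂μ - ∫ x, g x ∂ρ| ≤ C * (κ / (2 * (C + 1))) * d := h2 _ g hg
    have h4 := (le_abs_self _).trans h3
    have h5 := hκ _ (S.hull n hn μ hμ)
    rw [← hd] at h5
    have h6 : C * (κ / (2 * (C + 1))) * d < κ * d := by
      refine mul_lt_mul_of_pos_right ?_ hpos
      rw [mul_div_assoc', div_lt_iff₀ (by positivity)]
      nlinarith
    linarith

theorem lip_harmN (η : ℂ) (n : ℤ) :
    LipschitzWith (‖η‖₊ * 7 * ‖(n : ℝ)‖₊) fun x : AddCircle (1 : ℝ) => (η * (fourier n x : ℂ)).re := by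
  refine LipschitzWith.of_dist_le_mul fun x y => ?_
  have h1 := (lip_harm η).dist_le_mul (n • x) (n • y)
  have e : ∀ x : AddCircle (1 : ℝ), (fourier 1 (n • x) : ℂ) = fourier n x := by
    intro x
    rw [fin_fourier, mul_one]
  simp only [e] at h1
  refine h1.trans ?_
  push_cast
  rw [mul_assoc (‖η‖ * 7)]
  refine mul_le_mul_of_nonneg_left ?_ (by positivity)
  rw [dist_eq_norm, dist_eq_norm, ← smul_sub, Real.norm_eq_abs]
  refine (norm_zsmul_le n (x - y)).trans (le_of_eq ?_)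
  rw [Int.norm_eq_abs]

theorem conclN_all {V : Fin 6 → ℂ} {O : Fin 6 → Measure (AddCircle (1 : ℝ))}
    {Z : Fin 6 → Finset (AddCircle (1 : ℝ))} {L : Fin 6 → ℕ} (S : SixZ V O Z L)
    (hV : ∀ ζ : ℂ, ζ ≠ 0 → ∃ i : Fin 6, ∀ j, j ≠ i → j ≠ i + 1 →
      (ζ * V j).re < max (ζ * V i).re (ζ * V (i + 1)).re) {n : ℤ} (hn : n ≠ 0) :
    ∃ ε : NNReal, 0 < ε ∧ ∀ ζ : ℂ, ‖ζ‖ = 1 → ∀ g : AddCircle (1 : ℝ) → ℝ, LipschitzWith ε g → ConclN O n ζ g := by
  have one : ∀ ζ : ℂ, ζ ≠ 0 → ∃ ε : NNReal, 0 < ε ∧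
      ∀ g : AddCircle (1 : ℝ) → ℝ, LipschitzWith ε g → ConclN O n ζ g := by
    intro ζ hζ
    obtain ⟨i, hi⟩ := hV ζ hζ
    rcases lt_trichotomy (ζ * V (i + 1)).re (ζ * V i).re with h | h | h
    · rw [max_eq_left h.le] at hi
      refine conclN_peak S hn ζ i fun j hj => ?_
      rcases eq_or_ne j (i + 1) with h' | h'
      · rw [h']
        exact h
      · exact hi j hj h'
    · rw [h, max_self] at hi
      exact conclN_side S hn ζ i h hi
    · rw [max_eq_right h.le] at hi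
      refine conclN_peak S hn ζ (i + 1) fun j hj => ?_
      rcases eq_or_ne j i with h' | h'
      · rw [h']
        exact h
      · exact hi j h' hj
  have hnR : (0 : ℝ) < |(n : ℝ)| := abs_pos.mpr (by exact_mod_cast hn)
  have key : ∃ ε : NNReal, 0 < ε ∧ ∀ ζ ∈ Metric.sphere (0 : ℂ) 1,
      ∀ g : AddCircle (1 : ℝ) → ℝ, LipschitzWith ε g → ConclN O n ζ g := by
    refine (isCompact_sphere (0 : ℂ) 1).induction_on
      (p := fun s => ∃ ε : NNReal, 0 < ε ∧ ∀ ζ ∈ s, ∀ g : AddCircle (1 : ℝ) → ℝ, LipschitzWith ε g → ConclN O n ζ g)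
      ⟨1, one_pos, fun ζ h => absurd h (Set.notMem_empty ζ)⟩ ?_ ?_ ?_
    · rintro s t hst ⟨ε, hε, h⟩
      exact ⟨ε, hε, fun ζ hζ => h ζ (hst hζ)⟩
    · rintro s t ⟨ε₁, hε₁, h₁⟩ ⟨ε₂, hε₂, h₂⟩
      refine ⟨min ε₁ ε₂, lt_min hε₁ hε₂, ?_⟩
      rintro ζ (hζ | hζ) g hg
      · exact h₁ ζ hζ g (hg.weaken (min_le_left _ _))
      · exact h₂ ζ hζ g (hg.weaken (min_le_right _ _))
    · intro ζ₀ hζ₀
      have hne : ζ₀ ≠ 0 := by
        rintro rfl
        simp at hζ₀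
      obtain ⟨ε, hε, h⟩ := one ζ₀ hne
      have hε' : (0 : ℝ) < ε := hε
      refine ⟨Metric.ball ζ₀ (ε / (14 * |(n : ℝ)|)),
        mem_nhdsWithin_of_mem_nhds (Metric.ball_mem_nhds _ (by positivity)),
        ε / 2, half_pos hε, fun ζ hζ g hg μ hμ => ?_⟩
      have hd : ‖ζ - ζ₀‖ < ε / (14 * |(n : ℝ)|) := by
        rw [← dist_eq_norm]
        exact hζ
      rw [lt_div_iff₀ (by positivity)] at hd
      have hl : LipschitzWith ε fun x => (((ζ - ζ₀) * (fourier n x : ℂ)).re + g x) := by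
        refine ((lip_harmN (ζ - ζ₀) n).add hg).weaken ?_
        rw [← NNReal.coe_le_coe]
        push_cast
        rw [Real.norm_eq_abs]
        nlinarith
      have e : ∀ x : AddCircle (1 : ℝ), (ζ₀ * (fourier n x : ℂ)).re + (((ζ - ζ₀) * (fourier n x : ℂ)).re + g x) =
          (ζ * (fourier n x : ℂ)).re + g x := by
        intro x
        rw [← add_assoc, ← Complex.add_re]
        congr 2
        ring
      have h3 := h _ hl μ hμ
      simp only [e] at h3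
      exact h3
  obtain ⟨ε, hε, h⟩ := key
  exact ⟨ε, hε, fun ζ hζ => h ζ (by simpa using hζ)⟩

end Pool.Agent.HexS
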