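import Pool.Agent.HexS.MeaS

/-!
# Doubling: from the quadratic to the linear rate
-/

open MeasureTheory Complex ComplexConjugate Polynomial
open Pool.Agent.Hex

namespace Pool.Agent.HexS

theorem orb_sq {n L : ℕ} (hL : 0 < L) (h : pt n L = rt n) {p : ℂ} (hp : p ∈ orb n L) : p ^ 2 ∈ orb n L := by
  unfold orb at hp
  obtain ⟨j, -, rfl⟩ := Finset.mem_image.mp hp
  rw [← pt_succ]
  exact pt_mem_orb hL h _

theorem union_sq {n₁ L₁ n₂ L₂ : ℕ} (hC : Cyc n₁ L₁ n₂ L₂) {p : ℂ} (hp : p ∈ orb n₁ L₁ ∪ orb n₂ L₂) :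
    p ^ 2 ∈ orb n₁ L₁ ∪ orb n₂ L₂ := by
  rcases Finset.mem_union.mp hp with h | h
  · exact Finset.mem_union_left _ (orb_sq hC.pos₁ hC.cyc₁ h)
  · exact Finset.mem_union_right _ (orb_sq hC.pos₂ hC.cyc₂ h)

theorem union_norm {n₁ L₁ n₂ L₂ : ℕ} {p : ℂ} (hp : p ∈ orb n₁ L₁ ∪ orb n₂ L₂) : ‖p‖ = 1 := by
  rcases Finset.mem_union.mp hp with hp | hp
  · exact norm_of_mem_orb hp
  · exact norm_of_mem_orb hp

/-- Near the orbits the distance grows under doubling. -/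
theorem dst_sq {n₁ L₁ n₂ L₂ : ℕ} (hC : Cyc n₁ L₁ n₂ L₂) {δ : ℝ} (hδ : 0 < δ) (hδ1 : δ ≤ 1 / 2)
    (hsep : ∀ p ∈ orb n₁ L₁ ∪ orb n₂ L₂, ∀ q ∈ orb n₁ L₁ ∪ orb n₂ L₂, p ≠ q → 4 * δ ≤ ‖p - q‖)
    {z : ℂ} (hz : ‖z‖ = 1) :
    3 / 2 * dst (orb n₁ L₁ ∪ orb n₂ L₂) z - 3 / 2 / δ * dst (orb n₁ L₁ ∪ orb n₂ L₂) z ^ 2 ≤
      dst (orb n₁ L₁ ∪ orb n₂ L₂) (z ^ 2) := by
  have hne : (orb n₁ L₁ ∪ orb n₂ L₂).Nonempty := ⟨_, Finset.mem_union_left _ (pt_mem_orb hC.pos₁ hC.cyc₁ 0)⟩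
  obtain ⟨p, hp, hpd⟩ := dst_exists hne z
  obtain ⟨q, hq, hqd⟩ := dst_exists hne (z ^ 2)
  have h0 := dst_nonneg (orb n₁ L₁ ∪ orb n₂ L₂) z
  have h1 := dst_nonneg (orb n₁ L₁ ∪ orb n₂ L₂) (z ^ 2)
  have hpn : ‖p‖ = 1 := union_norm hp
  rcases lt_or_ge (dst (orb n₁ L₁ ∪ orb n₂ L₂) z) δ with hlt | hge
  · have h2 : 0 ≤ 3 / 2 / δ * dst (orb n₁ L₁ ∪ orb n₂ L₂) z ^ 2 := by positivity
    have h3 : 3 / 2 * dst (orb n₁ L₁ ∪ orb n₂ L₂) z ≤ dst (orb n₁ L₁ ∪ orb n₂ L₂) (z ^ 2) := by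
      have e : z ^ 2 - p ^ 2 = (z - p) * (z + p) := by ring
      have hle : ‖z + p‖ ≤ 2 := (norm_add_le _ _).trans (by linarith)
      have hge2 : 3 / 2 ≤ ‖z + p‖ := by
        have h4 : ‖(2 : ℂ) * p‖ ≤ ‖z + p‖ + ‖z - p‖ := by
          have : (2 : ℂ) * p = (z + p) - (z - p) := by ring
          rw [this]
          exact norm_sub_le _ _
        rw [norm_mul, hpn] at h4
        norm_num at h4
        linarith
      have hn0 := norm_nonneg (z - p)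
      have hn : ‖z ^ 2 - p ^ 2‖ = ‖z - p‖ * ‖z + p‖ := by rw [e, norm_mul]
      rw [hqd, hpd]
      by_cases hqp : q = p ^ 2
      · rw [hqp, hn]
        nlinarith
      · have h5 := hsep (p ^ 2) (union_sq hC hp) q hq (Ne.symm hqp)
        have h6 : ‖p ^ 2 - q‖ ≤ ‖z ^ 2 - p ^ 2‖ + ‖z ^ 2 - q‖ := by
          have : p ^ 2 - q = -(z ^ 2 - p ^ 2) + (z ^ 2 - q) := by ring
          rw [this]
          refine (norm_add_le _ _).trans ?_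
          rw [norm_neg]
        have h7 : ‖z ^ 2 - p ^ 2‖ ≤ 2 * δ := by
          rw [hn]
          rw [hpd] at hlt
          nlinarith
        rw [hpd] at hlt
        linarith
    linarith
  · have h2 : dst (orb n₁ L₁ ∪ orb n₂ L₂) z ≤ 1 / δ * dst (orb n₁ L₁ ∪ orb n₂ L₂) z ^ 2 := by
      rw [one_div, inv_mul_eq_div, le_div_iff₀ hδ]
      nlinarith
    have h3 : 3 / 2 / δ * dst (orb n₁ L₁ ∪ orb n₂ L₂) z ^ 2 =
        3 / 2 * (1 / δ * dst (orb n₁ L₁ ∪ orb n₂ L₂) z ^ 2) := by ring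
    rw [h3]
    linarith

theorem sideL_of_sideQ {n₁ L₁ n₂ L₂ : ℕ} (hC : Cyc n₁ L₁ n₂ L₂) {δ : ℝ} (hδ : 0 < δ) (hδ1 : δ ≤ 1 / 2)
    (hsep : ∀ p ∈ orb n₁ L₁ ∪ orb n₂ L₂, ∀ q ∈ orb n₁ L₁ ∪ orb n₂ L₂, p ≠ q → 4 * δ ≤ ‖p - q‖)
    (h : SideQ n₁ L₁ n₂ L₂) : SideL n₁ L₁ n₂ L₂ := by
  obtain ⟨C, hC0, hQ⟩ := h
  refine ⟨3 / δ * C, by positivity, fun μ hμ => ?_⟩
  have hq := hQ μ hμ
  obtain ⟨hP, hp2, -⟩ := hμ
  have hφ : Continuous fun x : AddCircle (1 : ℝ) => (fourier 1 x : ℂ) := (fourier 1).continuous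
  set D : ℂ → ℝ := dst (orb n₁ L₁ ∪ orb n₂ L₂) with hD
  have hDc : Continuous D := dst_cont _
  have i1 : Integrable (fun x : AddCircle (1 : ℝ) => D (fourier 1 x : ℂ)) μ := mea_integrable (hDc.comp hφ)
  have i2 : Integrable (fun x : AddCircle (1 : ℝ) => D (fourier 1 x : ℂ) ^ 2) μ :=
    mea_integrable ((hDc.comp hφ).pow 2)
  have i3 : Integrable (fun x : AddCircle (1 : ℝ) => D ((fourier 1 x : ℂ) ^ 2)) μ :=
    mea_integrable (hDc.comp (hφ.pow 2))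
  have e1 : ∫ x, D ((fourier 1 x : ℂ) ^ 2) ∂μ = ∫ x, D (fourier 1 x : ℂ) ∂μ := by
    rw [← mea_int_comp hp2 (fun x => D (fourier 1 x : ℂ)) i1.aestronglyMeasurable]
    simp only [mea_nsmul]
  have h1 : ∫ x, (3 / 2 * D (fourier 1 x : ℂ) - 3 / 2 / δ * D (fourier 1 x : ℂ) ^ 2) ∂μ ≤
      ∫ x, D ((fourier 1 x : ℂ) ^ 2) ∂μ :=
    integral_mono ((i1.const_mul _).sub (i2.const_mul _)) i3 fun x => dst_sq hC hδ hδ1 hsep (mea_norm x)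
  rw [integral_sub (i1.const_mul _) (i2.const_mul _), integral_const_mul, integral_const_mul, e1] at h1
  have h2 : ∫ x, D (fourier 1 x : ℂ) ∂μ ≤ 3 / δ * ∫ x, D (fourier 1 x : ℂ) ^ 2 ∂μ := by
    have h3 : 3 / δ * ∫ x, D (fourier 1 x : ℂ) ^ 2 ∂μ = 2 * (3 / 2 / δ * ∫ x, D (fourier 1 x : ℂ) ^ 2 ∂μ) := by
      ring
    rw [h3]
    linarith
  refine h2.trans ?_
  rw [mul_assoc]
  gcongr

end Pool.Agent.HexS
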