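import Pool.Agent.Hex.AnH
import Pool.Agent.Hex.FinH

/-!
# The engine of `Hex/EngH.lean` with its quadratic lower bound

The text of `Hex.engine` and `Hex.good_of_cert` (helpers 71, 17, 56) with the conclusion `GoodS` instead of `Good`.
-/

open MeasureTheory Complex ComplexConjugate Polynomial
open Pool.Agent.Hex

namespace Pool.Agent.HexS

/-- Up to a bounded coboundary for `z ↦ z ^ 2` the function `h` is at least `c ‖z - p‖ ^ 2` for some `p` in `S`. -/
def GoodS (S : Finset ℂ) (h : ℂ → ℝ) : Prop :=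
  ∃ (u : ℂ → ℝ) (c : ℝ), 0 < c ∧ Measurable u ∧ (∃ C, ∀ z, ‖z‖ = 1 → |u z| ≤ C) ∧
    ∀ z, ‖z‖ = 1 → ∃ p ∈ S, c * ‖z - p‖ ^ 2 ≤ h z + u z - u (z ^ 2)

/-- ENGINE. -/
theorem engineS {n₁ L₁ n₂ L₂ : ℕ} (hC : Cyc n₁ L₁ n₂ L₂) {r K γ : ℝ} (hr : 0 < r) (hr1 : r ≤ 1)
    (hsep : ∀ p ∈ orb n₁ L₁ ∪ orb n₂ L₂, ∀ q ∈ orb n₁ L₁ ∪ orb n₂ L₂, p ≠ q → 2 * r ≤ ‖p - q‖)
    (h M : ℂ → ℝ) (E : ℂ → ℂ) (hE : CJet E K) (hh : ∀ z, ‖z‖ = 1 → h z = M z + (E z).re)
    (hM : ∀ z, ‖z‖ = 1 → ∃ p ∈ orb n₁ L₁ ∪ orb n₂ L₂, γ * ‖z - p‖ ^ 2 ≤ M z)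
    (hM0 : ∀ p ∈ orb n₁ L₁ ∪ orb n₂ L₂, M p = 0)
    (h1 : ∑ j ∈ Finset.range L₁, h (pt n₁ j) = 0) (h2 : ∑ j ∈ Finset.range L₂, h (pt n₂ j) = 0)
    (hγ1 : 2 * K < γ) (hγ2 : 131 * K < γ * (r / 2) ^ 2) :
    GoodS (orb n₁ L₁ ∪ orb n₂ L₂) h := by
  classical
  set S : Finset ℂ := orb n₁ L₁ ∪ orb n₂ L₂ with hS
  have hnS : ∀ p ∈ S, ‖p‖ = 1 := fun p hp => by
    rcases Finset.mem_union.mp hp with hp | hp
    · exact norm_of_mem_orb hp
    · exact norm_of_mem_orb hp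
  have hK : 0 ≤ K := (norm_nonneg _).trans (hE.1 1 (by simp))
  have hγ : 0 < γ := by linarith
  -- derivatives
  have hD : ∀ p, ∃ d : ℂ, ‖p‖ = 1 → ‖d‖ ≤ K ∧
      ∀ z, ‖z‖ = 1 → ‖E z - E p - d * (((z * conj p).im : ℝ) : ℂ)‖ ≤ K * ‖z - p‖ ^ 2 := by
    intro p
    by_cases hp : ‖p‖ = 1
    · obtain ⟨d, hd⟩ := hE.2 p hp
      exact ⟨d, fun _ => hd⟩
    · exact ⟨0, fun h => absurd h hp⟩
  choose D hD using hD
  have hhS : ∀ p ∈ S, h p = (E p).re := fun p hp => by rw [hh p (hnS p hp), hM0 p hp, zero_add]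
  obtain ⟨a, b, hab⟩ := both_data hC (K := K) h (fun p => (D p).re)
    (fun p hp => by rw [hhS p hp]; exact (Complex.abs_re_le_norm _).trans (hE.1 p (hnS p hp)))
    (fun p hp => (Complex.abs_re_le_norm _).trans (hD p (hnS p hp)).1) h1 h2
  set u : ℂ → ℝ := fun z => ∑ p ∈ S, if ‖z - p‖ < r then a p + b p * (z * conj p).im else 0 with hu
  -- value near a point
  have hun : ∀ z, ∀ p ∈ S, ‖z - p‖ < r → u z = a p + b p * (z * conj p).im := by
    intro z p hp hzp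
    show ∑ p ∈ S, (if ‖z - p‖ < r then a p + b p * (z * conj p).im else 0) = _
    rw [Finset.sum_eq_single_of_mem p hp, if_pos hzp]
    intro q hq hqp
    rw [if_neg]
    intro hzq
    have h3 := hsep p hp q hq hqp.symm
    have h4 : ‖p - q‖ ≤ ‖z - p‖ + ‖z - q‖ := by
      rw [← norm_neg (z - p)]
      calc ‖p - q‖ = ‖-(z - p) + (z - q)‖ := by ring_nf
        _ ≤ _ := norm_add_le _ _
    linarith
  have him : ∀ z p : ℂ, ‖z‖ = 1 → ‖p‖ = 1 → |(z * conj p).im| ≤ ‖z - p‖ := by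
    intro z p hz hp
    have hpp : p * conj p = 1 := by
      rw [Complex.mul_conj, Complex.normSq_eq_norm_sq, hp]; simp
    have h5 : ‖z * conj p - 1‖ = ‖z - p‖ := by
      rw [← hpp, ← sub_mul, norm_mul, Complex.norm_conj, hp, mul_one]
    rw [← h5]
    exact abs_im_le_sub_one _
  have hub : ∀ z, ‖z‖ = 1 → |u z| ≤ 64 * K := by
    intro z hz
    by_cases hex : ∃ p ∈ S, ‖z - p‖ < r
    · obtain ⟨p, hp, hzp⟩ := hex
      rw [hun z p hp hzp]
      obtain ⟨-, -, -, k4, k5⟩ := hab p hp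
      have h6 := him z p hz (hnS p hp)
      have h7 : |b p * (z * conj p).im| ≤ K * 1 := by
        rw [abs_mul]
        exact mul_le_mul k5 (by linarith) (abs_nonneg _) hK
      exact (abs_add_le _ _).trans (by linarith)
    · push Not at hex
      have : u z = 0 := by
        show ∑ p ∈ S, (if ‖z - p‖ < r then a p + b p * (z * conj p).im else 0) = 0
        refine Finset.sum_eq_zero fun p hp => ?_
        rw [if_neg (not_lt.mpr (hex p hp))]
      rw [this, abs_zero]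
      positivity
  -- key inequality
  have hc2 : 131 * K / (r / 2) ^ 2 < γ := by
    rw [div_lt_iff₀ (by positivity)]
    exact hγ2
  have hc3 : 2 * K ≤ 131 * K / (r / 2) ^ 2 := by
    rw [le_div_iff₀ (by positivity)]
    have : (r / 2) ^ 2 ≤ 1 := by nlinarith
    nlinarith
  have key : ∀ z, ‖z‖ = 1 → ∃ p ∈ S, (γ - 131 * K / (r / 2) ^ 2) * ‖z - p‖ ^ 2 ≤ h z + u z - u (z ^ 2) := by
    intro z hz
    by_cases hex : ∃ p ∈ S, ‖z - p‖ < r / 2
    · obtain ⟨p, hp, hzp⟩ := hex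
      have hpn := hnS p hp
      obtain ⟨k1, k2, k3, k4, k5⟩ := hab p hp
      obtain ⟨hd1, hd2⟩ := hD p hpn
      have hu1 := hun z p hp (by linarith)
      have hz2 : ‖z ^ 2 - p ^ 2‖ < r := by
        have e : z ^ 2 - p ^ 2 = (z - p) * (z + p) := by ring
        rw [e, norm_mul]
        have : ‖z + p‖ ≤ 2 := (norm_add_le _ _).trans (by linarith)
        calc ‖z - p‖ * ‖z + p‖ ≤ ‖z - p‖ * 2 := by gcongr
          _ < r := by linarith
      have hu2 := hun (z ^ 2) (p ^ 2) k1 hz2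
      set w : ℂ := z * conj p with hw
      have hw1 : ‖w‖ = 1 := by rw [hw, norm_mul, Complex.norm_conj, hz, hpn, one_mul]
      have hpp : p * conj p = 1 := by
        rw [Complex.mul_conj, Complex.normSq_eq_norm_sq, hpn]; simp
      have hwn : ‖w - 1‖ = ‖z - p‖ := by
        rw [← hpp, hw, ← sub_mul, norm_mul, Complex.norm_conj, hpn, mul_one]
      have hre : w.re = 1 - ‖z - p‖ ^ 2 / 2 := by
        have := norm_sub_one_sq hw1
        rw [hwn] at this
        linarith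
      have him2 : (z ^ 2 * conj (p ^ 2)).im = 2 * w.im - w.im * ‖z - p‖ ^ 2 := by
        have e : z ^ 2 * conj (p ^ 2) = w ^ 2 := by rw [hw, map_pow]; ring
        rw [e, pow_two, Complex.mul_im, hre]
        ring
      have hEz := hd2 z hz
      have hEr : |(E z).re - (E p).re - (D p).re * w.im| ≤ K * ‖z - p‖ ^ 2 := by
        have h8 := Complex.abs_re_le_norm (E z - E p - D p * ((w.im : ℝ) : ℂ))
        simp only [sub_re, Complex.re_mul_ofReal] at h8
        exact h8.trans hEz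
      obtain ⟨q, hq, hMq⟩ := hM z hz
      have hMp : γ * ‖z - p‖ ^ 2 ≤ M z := by
        by_cases hqp : q = p
        · rw [← hqp]; exact hMq
        · have h9 := hsep p hp q hq (Ne.symm hqp)
          have h10 : ‖p - q‖ ≤ ‖z - p‖ + ‖z - q‖ := by
            rw [← norm_neg (z - p)]
            calc ‖p - q‖ = ‖-(z - p) + (z - q)‖ := by ring_nf
              _ ≤ _ := norm_add_le _ _
          have h11 : ‖z - p‖ ≤ ‖z - q‖ := by linarith
          refine le_trans ?_ hMq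
          gcongr
      have hbz : |b (p ^ 2) * (w.im * ‖z - p‖ ^ 2)| ≤ K * ‖z - p‖ ^ 2 := by
        obtain ⟨-, -, -, -, k6⟩ := hab (p ^ 2) k1
        have h12 : |w.im| ≤ 1 := (Complex.abs_im_le_norm w).trans_eq hw1
        rw [abs_mul, abs_mul, abs_of_nonneg (sq_nonneg ‖z - p‖)]
        calc |b (p ^ 2)| * (|w.im| * ‖z - p‖ ^ 2) ≤ K * (1 * ‖z - p‖ ^ 2) := by gcongr
          _ = _ := by ring
      have e : h z + u z - u (z ^ 2) = M z + ((E z).re - (E p).re - (D p).re * w.im) +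
          b (p ^ 2) * (w.im * ‖z - p‖ ^ 2) := by
        rw [hu1, hu2, him2, hh z hz]
        rw [hhS p hp] at k2
        have k2' : a (p ^ 2) = a p + (E p).re := by linarith
        have k3' : 2 * b (p ^ 2) = b p + (D p).re := by linarith
        rw [k2']
        have : b (p ^ 2) * (2 * w.im - w.im * ‖z - p‖ ^ 2) =
            (b p + (D p).re) * w.im - b (p ^ 2) * (w.im * ‖z - p‖ ^ 2) := by rw [← k3']; ring
        rw [this]
        ring
      have h13 := (abs_le.mp hEr).1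
      have h14 := (abs_le.mp hbz).1
      have h15 : (γ - 2 * K) * ‖z - p‖ ^ 2 ≤ h z + u z - u (z ^ 2) := by
        rw [e]; linarith
      refine ⟨p, hp, le_trans ?_ h15⟩
      gcongr
    · push Not at hex
      obtain ⟨q, hq, hMq⟩ := hM z hz
      have h18 := hex q hq
      have h19 : 131 * K ≤ 131 * K / (r / 2) ^ 2 * ‖z - q‖ ^ 2 := by
        rw [div_mul_eq_mul_div, le_div_iff₀ (by positivity)]
        have : (r / 2) ^ 2 ≤ ‖z - q‖ ^ 2 := pow_le_pow_left₀ (by positivity) h18 2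
        gcongr
      have h20 := (abs_le.mp ((Complex.abs_re_le_norm _).trans (hE.1 z hz))).1
      have h21 := (abs_le.mp (hub z hz)).1
      have h22 := (abs_le.mp (hub (z ^ 2) (by rw [norm_pow, hz, one_pow]))).2
      refine ⟨q, hq, ?_⟩
      rw [hh z hz, sub_mul]
      linarith
  refine ⟨u, γ - 131 * K / (r / 2) ^ 2, by linarith, ?_, ⟨64 * K, hub⟩, key⟩
  refine Finset.measurable_fun_sum _ fun p _ => ?_
  refine Measurable.ite ?_ ?_ measurable_const
  · exact measurableSet_lt (by fun_prop) measurable_const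
  · have : Continuous fun z : ℂ => a p + b p * (z * conj p).im := by fun_prop
    exact this.measurable

/-- A certificate gives a good function. -/
theorem good_of_certS {n₁ L₁ n₂ L₂ : ℕ} (hC : Cyc n₁ L₁ n₂ L₂) (h : Cert n₁ L₁ n₂ L₂) :
    ∃ G₂ G₃ : ℂ[X], GoodS (orb n₁ L₁ ∪ orb n₂ L₂) (hE n₁ L₁ n₂ L₂ G₂ G₃) := by
  classical
  obtain ⟨q, G₂, G₃, F, e, t, s, hF1, hF2, ht, hs, he1, he2, hid, hq1, hq2, hq3, hsep, hprod⟩ := h
  refine ⟨G₂, G₃, ?_⟩
  set S : Finset ℂ := orb n₁ L₁ ∪ orb n₂ L₂ with hS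
  have hnS : ∀ p ∈ S, ‖p‖ = 1 := fun p hp => by
    rcases Finset.mem_union.mp hp with hp | hp
    · exact norm_of_mem_orb hp
    · exact norm_of_mem_orb hp
  have hcard : S.card ≤ 64 := by
    refine (Finset.card_union_le _ _).trans ?_
    rw [hC.card₁, hC.card₂]
    exact hC.le
  have hne : S.Nonempty := ⟨_, Finset.mem_union_left _ (pt_mem_orb hC.pos₁ hC.cyc₁ 0)⟩
  -- the three factors
  have hA : TS (fun z => (F - van S).eval z) 64 (1 / 2 ^ 470) := by
    refine (TS.poly (F - van S) (D := 64) ?_).mono (le_refl _) hF2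
    refine (Polynomial.natDegree_sub_le _ _).trans (max_le (by omega) ((van_natDegree S).trans hcard))
  have hV : TS (fun z => (van S).eval z) 64 (2 ^ 64) := (TS.van S hnS).mono hcard
    (pow_le_pow_right₀ (by norm_num) hcard)
  have hB : TS (fun z => (F - van S).eval z + 2 * (van S).eval z) 64 (1 / 2 ^ 470 + 2 * 2 ^ 64) := by
    refine hA.add ?_
    have := (TS.const 2).mul hV
    refine this.mono (by norm_num) (le_of_eq ?_)
    norm_num
  have hQ : TS (fun z => (((q.eval z).re : ℝ) : ℂ)) 511 (2 ^ 90) := ((TS.poly q hq1).mono (le_refl _) hq2).re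
  have hE1 := (hA.mul hB.conj).mul hQ
  have hE2 : TS (fun z => e.eval z + (((tE n₁ L₁ n₂ L₂ - t : ℝ) : ℂ) + (sE n₁ L₁ n₂ L₂ - s) * z)) 639
      (1 / 2 ^ 470 + (1 / 2 ^ 470 + 1 / 2 ^ 470 * 1)) := by
    refine ((TS.poly e he1).mono (by norm_num) he2).add (TS.add ?_ ?_)
    · refine (TS.const _).mono (by norm_num) ?_
      rw [Complex.norm_real, Real.norm_eq_abs, abs_sub_comm]
      exact ht
    · refine ((TS.const (sE n₁ L₁ n₂ L₂ - s)).mul TS.ident).mono (by norm_num) ?_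
      rw [norm_sub_rev]
      gcongr
  have hJ := ((hE1.mono (D' := 639) (by norm_num) (le_refl _)).add hE2).cjet.mono num_bound
  refine engineS hC (r := 1 / 2 ^ 13) (K := 1 / 2 ^ 290) (γ := 1 / 2 ^ 240) (by norm_num) (by norm_num) ?_ _
    (fun z => ‖(van S).eval z‖ ^ 2 * (q.eval z).re) _ hJ ?_ ?_ ?_ (sum_hE₁ hC G₂ G₃) (sum_hE₂ hC G₂ G₃)
    num_bound₁ num_bound₂
  · intro p hp p' hp' hpp
    refine le_trans (le_of_eq ?_) (hsep p hp p' hp' hpp)
    norm_num
  · intro z hz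
    have h1 := hid z hz
    have h2 : hE n₁ L₁ n₂ L₂ G₂ G₃ z = ‖F.eval z‖ ^ 2 * (q.eval z).re + (e.eval z).re + (tE n₁ L₁ n₂ L₂ - t) +
        ((sE n₁ L₁ n₂ L₂ - s) * z).re := by
      rw [← h1, hE]
      simp only [Complex.add_re, sub_mul, Complex.sub_re]
      ring
    have h3 : ‖F.eval z‖ ^ 2 = ‖(van S).eval z‖ ^ 2 +
        ((F - van S).eval z * conj ((F - van S).eval z + 2 * (van S).eval z)).re := by
      rw [← Complex.normSq_eq_norm_sq, ← Complex.normSq_eq_norm_sq, Complex.normSq_apply, Complex.normSq_apply,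
        Polynomial.eval_sub]
      simp only [Complex.mul_re, Complex.conj_re, Complex.conj_im, Complex.sub_re, Complex.sub_im, Complex.add_re,
        Complex.add_im, Complex.mul_im, Complex.re_ofNat, Complex.im_ofNat]
      ring
    rw [h2, h3]
    simp only [Complex.add_re, Complex.re_mul_ofReal, Complex.ofReal_re]
    ring
  · intro z hz
    obtain ⟨p, hp, hp2⟩ := van_lower S hne (1 / 2 ^ 180) hprod z
    refine ⟨p, hp, ?_⟩
    have h4 := hq3 z hz
    calc 1 / 2 ^ 240 * ‖z - p‖ ^ 2 = (1 / 2 ^ 180 * ‖z - p‖ ^ 2) * (1 / 2 ^ 60) := by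
          rw [show (1 : ℝ) / 2 ^ 240 = 1 / 2 ^ 180 * (1 / 2 ^ 60) by norm_num]; ring
      _ ≤ ‖(van S).eval z‖ ^ 2 * (q.eval z).re := by gcongr
  · intro p hp
    have : (van S).eval p = 0 := by
      rw [eval_van]
      exact Finset.prod_eq_zero hp (sub_self p)
    show ‖(van S).eval p‖ ^ 2 * (q.eval p).re = 0
    rw [this]
    simp

end Pool.Agent.HexS
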