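import Pool.Agent.HexS.StabS

/-!
# All sides, the vertices, and an open set of functions
-/

open MeasureTheory Complex ComplexConjugate
open Pool.Agent.Hex

namespace Pool.Agent.HexS

/-! ## Orbit measures -/

/-- The uniform probability measure on the points `s * 2 ^ j / m`, `j < L`, of the circle. -/
noncomputable def unif (m L : ℕ) (s : ℤ) : Measure (AddCircle (1 : ℝ)) :=
  (L : ENNReal)⁻¹ • ∑ j ∈ Finset.range L, Measure.dirac ((s * 2 ^ j / m : ℝ) : AddCircle (1 : ℝ))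

theorem unif_prob {m L : ℕ} {s : ℤ} (hL : 0 < L) : IsProbabilityMeasure (unif m L s) := by
  refine ⟨?_⟩
  have h0 : (L : ENNReal) ≠ 0 := by exact_mod_cast hL.ne'
  unfold unif
  rw [Measure.smul_apply, Measure.finsetSum_apply]
  simp only [measure_univ, Finset.sum_const, Finset.card_range, nsmul_eq_mul, mul_one, smul_eq_mul]
  exact ENNReal.inv_mul_cancel h0 (ENNReal.natCast_ne_top L)

theorem pt_coe (m j : ℕ) (s : ℤ) : ((s * 2 ^ j / m : ℝ) : AddCircle (1 : ℝ)) = s • ((2 ^ j) • ym m) := by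
  unfold ym
  rw [← AddCircle.coe_nsmul, ← AddCircle.coe_zsmul]
  congr 1
  rw [nsmul_eq_mul, zsmul_eq_mul]
  push_cast
  ring

theorem unif_int {E : Type*} [NormedAddCommGroup E] [NormedSpace ℝ E] [CompleteSpace E]
    {m L : ℕ} {s : ℤ} (g : AddCircle (1 : ℝ) → E) :
    ∫ x, g x ∂(unif m L s) = (L : ℝ)⁻¹ • ∑ j ∈ Finset.range L, g (s • ((2 ^ j) • ym m)) := by
  unfold unif
  rw [integral_smul_measure, integral_finsetSum_measure]
  · simp only [integral_dirac, pt_coe]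
    rw [ENNReal.toReal_inv, ENNReal.toReal_natCast]
  · intro j _
    exact integrable_dirac (by simp)

theorem unif_om {m L : ℕ} (g : AddCircle (1 : ℝ) → ℝ) : ∫ x, g x ∂(unif m L 1) = om m L g := by
  rw [unif_int]
  unfold om
  simp only [one_smul, smul_eq_mul]
  ring

theorem unif_om_neg {m L : ℕ} (g : AddCircle (1 : ℝ) → ℝ) :
    ∫ x, g x ∂(unif m L (-1)) = om m L (fun x => g (-x)) := by
  rw [unif_int]
  unfold om
  simp only [neg_smul, one_smul, smul_eq_mul]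
  ring

theorem unif_coef {m L : ℕ} : coef (unif m L 1) 1 = vtx m L := by
  unfold coef
  rw [unif_int]
  simp only [one_smul, e_ym]
  unfold vtx sm
  rw [Complex.real_smul]
  push_cast
  ring

/-! ## Sides -/

/-- Stability at the side from `v` to `w`, for every coefficient. -/
def Stab (v w : ℂ) (ν ρ : Measure (AddCircle (1 : ℝ))) : Prop :=
  ∃ C : ℝ, 0 ≤ C ∧ ∀ (n : ℤ) (μ : Measure (AddCircle (1 : ℝ))), Inv μ → ∃ θ ∈ Set.Icc (0 : ℝ) 1,
    ∀ (K : NNReal) (g : AddCircle (1 : ℝ) → ℝ), LipschitzWith K g →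
      |∫ x, g (n • x) ∂μ - (θ * ∫ x, g x ∂ν + (1 - θ) * ∫ x, g x ∂ρ)| ≤
        C * K * Metric.infDist (coef μ n) (segment ℝ v w)

theorem push_int (μ : Measure (AddCircle (1 : ℝ))) (n : ℤ) {g : AddCircle (1 : ℝ) → ℝ} (hg : Continuous g) :
    ∫ x, g x ∂(μ.map fun x => n • x) = ∫ x, g (n • x) ∂μ := by
  have hm : Measurable fun x : AddCircle (1 : ℝ) => n • x := (continuous_zsmul n).measurable
  rw [integral_map hm.aemeasurable hg.aestronglyMeasurable]

theorem stab_of {n₁ L₁ n₂ L₂ : ℕ} (h : Stab1 (vtx n₁ L₁) (vtx n₂ L₂) (om n₁ L₁) (om n₂ L₂)) :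
    Stab (vtx n₁ L₁) (vtx n₂ L₂) (unif n₁ L₁ 1) (unif n₂ L₂ 1) := by
  obtain ⟨C, hC, h⟩ := h
  refine ⟨C, hC, fun n μ hμ => ?_⟩
  obtain ⟨θ, hθ, h2⟩ := h _ (fin_push hμ n)
  refine ⟨θ, hθ, fun K g hg => ?_⟩
  have h3 := h2 K g hg
  rw [push_int μ n hg.continuous, fin_push_coef, mul_one, ← unif_om, ← unif_om] at h3
  exact h3

theorem stab_symm {v w : ℂ} {ν ρ : Measure (AddCircle (1 : ℝ))} (h : Stab v w ν ρ) : Stab w v ρ ν := by
  obtain ⟨C, hC, h⟩ := h
  refine ⟨C, hC, fun n μ hμ => ?_⟩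
  obtain ⟨θ, ⟨h0, h1⟩, h2⟩ := h n μ hμ
  refine ⟨1 - θ, ⟨by linarith, by linarith⟩, fun K g hg => ?_⟩
  have h3 := h2 K g hg
  rw [segment_symm]
  have e : (1 - θ) * ∫ x, g x ∂ρ + (1 - (1 - θ)) * ∫ x, g x ∂ν = θ * ∫ x, g x ∂ν + (1 - θ) * ∫ x, g x ∂ρ := by
    ring
  rw [e]
  exact h3

theorem infDist_conj (c v w : ℂ) :
    Metric.infDist (conj c) (segment ℝ v w) ≤ Metric.infDist c (segment ℝ (conj v) (conj w)) := by
  refine (Metric.le_infDist ⟨conj v, left_mem_segment ℝ _ _⟩).mpr ?_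
  intro q hq
  obtain ⟨a, b, ha, hb, hab, rfl⟩ := hq
  have h1 : a • v + b • w ∈ segment ℝ v w := ⟨a, b, ha, hb, hab, rfl⟩
  refine (Metric.infDist_le_dist_of_mem h1).trans (le_of_eq ?_)
  rw [dist_eq_norm, dist_eq_norm, ← Complex.norm_conj]
  congr 1
  simp only [map_sub, map_add, Complex.conj_conj, Complex.real_smul, map_mul, Complex.conj_ofReal]

theorem stab_conj {v w : ℂ} {ν ρ ν' ρ' : Measure (AddCircle (1 : ℝ))} (h : Stab v w ν ρ)
    (hν : ∀ g : AddCircle (1 : ℝ) → ℝ, ∫ x, g (-x) ∂ν = ∫ x, g x ∂ν')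
    (hρ : ∀ g : AddCircle (1 : ℝ) → ℝ, ∫ x, g (-x) ∂ρ = ∫ x, g x ∂ρ') : Stab (conj v) (conj w) ν' ρ' := by
  obtain ⟨C, hC, h⟩ := h
  refine ⟨C, hC, fun n μ hμ => ?_⟩
  obtain ⟨θ, hθ, h2⟩ := h (-n) μ hμ
  refine ⟨θ, hθ, fun K g hg => ?_⟩
  have hneg : LipschitzWith 1 fun x : AddCircle (1 : ℝ) => -x := LipschitzWith.of_dist_le_mul fun x y => by
    rw [dist_neg_neg]
    simp
  have hgn : LipschitzWith K fun x => g (-x) := by
    have := hg.comp hneg
    rwa [mul_one] at this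
  have h3 := h2 K _ hgn
  simp only [neg_smul, neg_neg] at h3
  rw [hν, hρ, fin_conj] at h3
  exact h3.trans (mul_le_mul_of_nonneg_left (infDist_conj _ _ _) (by positivity))

theorem om_five (g : AddCircle (1 : ℝ) → ℝ) : om 5 4 (fun x => g (-x)) = om 5 4 g := by
  have h5 : (5 : ℕ) • ym 5 = 0 := by
    unfold ym
    rw [← AddCircle.coe_nsmul]
    have : (5 : ℕ) • (1 / ((5 : ℕ) : ℝ)) = 1 := by norm_num
    rw [this]
    exact AddCircle.coe_period 1
  have hneg : ∀ j : ℕ, -(((2 : ℕ) ^ j) • ym 5) = ((2 : ℕ) ^ (j + 2)) • ym 5 := by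
    intro j
    rw [neg_eq_iff_add_eq_zero, ← add_smul]
    have : (2 : ℕ) ^ j + 2 ^ (j + 2) = 2 ^ j * 5 := by ring
    rw [this, mul_smul, h5, smul_zero]
  have hper : ∀ j : ℕ, ((2 : ℕ) ^ (j + 4)) • ym 5 = ((2 : ℕ) ^ j) • ym 5 := by
    intro j
    have : (2 : ℕ) ^ (j + 4) = 2 ^ j + (2 ^ j * 3) * 5 := by ring
    rw [this, add_smul, mul_smul, h5, smul_zero, add_zero]
  unfold om
  simp only [hneg]
  congr 1
  exact fin_shift (fun j => g (((2 : ℕ) ^ j) • ym 5)) 4 (fun j => by simp only [hper]) 2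

theorem om_one (g : AddCircle (1 : ℝ) → ℝ) : om 1 1 (fun x => g (-x)) = om 1 1 g := by
  have h1 : ym 1 = 0 := by
    unfold ym
    have : (1 / ((1 : ℕ) : ℝ)) = 1 := by norm_num
    rw [this]
    exact AddCircle.coe_period 1
  unfold om
  simp [h1]

theorem neg_om (m L : ℕ) (g : AddCircle (1 : ℝ) → ℝ) :
    ∫ x, g (-x) ∂(unif m L 1) = ∫ x, g x ∂(unif m L (-1)) := by
  rw [unif_om_neg, unif_om (fun x => g (-x))]

theorem neg_one (g : AddCircle (1 : ℝ) → ℝ) : ∫ x, g (-x) ∂(unif 1 1 1) = ∫ x, g x ∂(unif 1 1 1) := by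
  rw [unif_om (fun x => g (-x)), om_one, unif_om]

theorem neg_five (g : AddCircle (1 : ℝ) → ℝ) : ∫ x, g (-x) ∂(unif 5 4 1) = ∫ x, g x ∂(unif 5 4 1) := by
  rw [unif_om (fun x => g (-x)), om_five, unif_om]

/-! ## Vertices -/

/-- Stability at the vertex `v`. -/
def StabV (v : ℂ) (ν : Measure (AddCircle (1 : ℝ))) : Prop :=
  ∃ C : ℝ, 0 ≤ C ∧ ∀ (n : ℤ) (μ : Measure (AddCircle (1 : ℝ))), Inv μ →
    ∀ (K : NNReal) (g : AddCircle (1 : ℝ) → ℝ), LipschitzWith K g →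
      |∫ x, g (n • x) ∂μ - ∫ x, g x ∂ν| ≤ C * K * ‖coef μ n - v‖

theorem e_lip : LipschitzWith 7 fun x : AddCircle (1 : ℝ) => (fourier 1 x : ℂ) := by
  refine LipschitzWith.of_dist_le_mul fun x y => ?_
  have key : ∀ t : AddCircle (1 : ℝ), ‖(fourier 1 t : ℂ) - 1‖ ≤ 7 * ‖t‖ := by
    intro t
    induction t using QuotientAddGroup.induction_on with
    | H x =>
      have h1 : ‖((x : ℝ) : AddCircle (1 : ℝ))‖ = |x - round x| := UnitAddCircle.norm_eq
      have h2 : (fourier 1 ((x : ℝ) : AddCircle (1 : ℝ)) : ℂ) = Complex.exp (2 * Real.pi * Complex.I * x) := by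
        rw [fourier_coe_apply]
        congr 1
        push_cast
        ring
      change ‖(fourier 1 ((x : ℝ) : AddCircle (1 : ℝ)) : ℂ) - 1‖ ≤ 7 * ‖((x : ℝ) : AddCircle (1 : ℝ))‖
      rw [h1, h2]
      set r : ℝ := x - round x with hr
      have h3 : Complex.exp (2 * Real.pi * Complex.I * x) = Complex.exp (Complex.I * ((2 * Real.pi * r : ℝ) : ℂ)) := by
        have : (2 * Real.pi * Complex.I * x : ℂ) = Complex.I * ((2 * Real.pi * r : ℝ) : ℂ) + (round x : ℤ) * (2 * Real.pi * Complex.I) := by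
          rw [hr]
          push_cast
          ring
        rw [this, Complex.exp_add, Complex.exp_int_mul_two_pi_mul_I, mul_one]
      rw [h3]
      have h4 := Real.norm_exp_I_mul_ofReal_sub_one_le (x := 2 * Real.pi * r)
      refine h4.trans ?_
      rw [Real.norm_eq_abs, abs_mul, abs_of_pos (by positivity)]
      have h5 : 2 * Real.pi ≤ 7 := by nlinarith [Real.pi_lt_d2]
      exact mul_le_mul_of_nonneg_right h5 (abs_nonneg _)
  have h : (fourier 1 x : ℂ) = fourier 1 (x - y) * fourier 1 y := by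
    rw [fourier_apply, fourier_apply, fourier_apply, one_zsmul, one_zsmul, one_zsmul, ← Circle.coe_mul,
      ← AddCircle.toCircle_add, sub_add_cancel]
  rw [dist_eq_norm, dist_eq_norm, h]
  have h2 : (fourier 1 (x - y) : ℂ) * fourier 1 y - fourier 1 y = (fourier 1 (x - y) - 1) * fourier 1 y := by ring
  rw [h2, norm_mul, mea_norm, mul_one]
  exact key _

theorem re_lip : LipschitzWith 7 fun x : AddCircle (1 : ℝ) => (fourier 1 x : ℂ).re := by
  refine LipschitzWith.of_dist_le_mul fun x y => ?_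
  refine le_trans ?_ (e_lip.dist_le_mul x y)
  rw [Real.dist_eq, ← Complex.sub_re, dist_eq_norm]
  exact Complex.abs_re_le_norm _

theorem im_lip : LipschitzWith 7 fun x : AddCircle (1 : ℝ) => (fourier 1 x : ℂ).im := by
  refine LipschitzWith.of_dist_le_mul fun x y => ?_
  refine le_trans ?_ (e_lip.dist_le_mul x y)
  rw [Real.dist_eq, ← Complex.sub_im, dist_eq_norm]
  exact Complex.abs_im_le_norm _

theorem int_re {μ : Measure (AddCircle (1 : ℝ))} [IsProbabilityMeasure μ] (n : ℤ) :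
    ∫ x, (fourier n x : ℂ).re ∂μ = (coef μ n).re := by
  unfold coef
  exact integral_re (mea_integrable (fourier n).continuous)

theorem int_im {μ : Measure (AddCircle (1 : ℝ))} [IsProbabilityMeasure μ] (n : ℤ) :
    ∫ x, (fourier n x : ℂ).im ∂μ = (coef μ n).im := by
  unfold coef
  exact integral_im (mea_integrable (fourier n).continuous)

theorem lip_int {ν : Measure (AddCircle (1 : ℝ))} [IsProbabilityMeasure ν] {K : NNReal}
    {g : AddCircle (1 : ℝ) → ℝ} (hg : LipschitzWith K g) : |∫ x, g x ∂ν - g 0| ≤ K := by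
  have h1 : ∫ x, g x ∂ν - g 0 = ∫ x, (g x - g 0) ∂ν := by
    rw [integral_sub (mea_integrable hg.continuous) (integrable_const _)]
    simp
  rw [h1]
  refine abs_integral_le_integral_abs.trans ?_
  have h2 : ∀ x, |g x - g 0| ≤ K := by
    intro x
    have h3 := hg.dist_le_mul x 0
    rw [Real.dist_eq, dist_zero_right] at h3
    have h4 : ‖x‖ ≤ 1 := by
      have := AddCircle.norm_le_half_period (1 : ℝ) (x := x) one_ne_zero
      rw [abs_one] at this
      linarith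
    calc |g x - g 0| ≤ K * ‖x‖ := h3
      _ ≤ K * 1 := by gcongr
      _ = K := mul_one _
  have h5 : ∫ x, |g x - g 0| ∂ν ≤ ∫ _x, (K : ℝ) ∂ν :=
    integral_mono ((mea_integrable hg.continuous).sub (integrable_const _)).abs (integrable_const _) h2
  simpa using h5

theorem stabV_of {v w : ℂ} {ν ρ : Measure (AddCircle (1 : ℝ))} [IsProbabilityMeasure ν]
    [IsProbabilityMeasure ρ] (hvw : v ≠ w) (hν : coef ν 1 = v) (hρ : coef ρ 1 = w) (h : Stab v w ν ρ) :
    StabV v ν := by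
  obtain ⟨C, hC, h⟩ := h
  have hpos : 0 < ‖w - v‖ := norm_pos_iff.mpr (sub_ne_zero.mpr hvw.symm)
  set C₁ : ℝ := (1 + 14 * C) / ‖w - v‖ with hC₁
  have hC₁0 : 0 ≤ C₁ := by positivity
  refine ⟨C + 2 * C₁, by positivity, fun n μ hμ K g hg => ?_⟩
  have hP := hμ.1
  obtain ⟨θ, ⟨h0, h1⟩, h2⟩ := h n μ hμ
  set d : ℝ := Metric.infDist (coef μ n) (segment ℝ v w) with hd
  have hd0 : 0 ≤ d := Metric.infDist_nonneg
  have hdle : d ≤ ‖coef μ n - v‖ := by
    rw [← dist_eq_norm]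
    exact Metric.infDist_le_dist_of_mem (left_mem_segment ℝ v w)
  have hre := h2 7 _ re_lip
  have him := h2 7 _ im_lip
  have e1 : ∀ x : AddCircle (1 : ℝ), (fourier 1 (n • x) : ℂ) = fourier n x := by
    intro x
    rw [fin_fourier, mul_one]
  simp only [e1] at hre him
  rw [int_re, int_re, int_re, hν, hρ] at hre
  rw [int_im, int_im, int_im, hν, hρ] at him
  have hθ : (1 - θ) * ‖w - v‖ ≤ (1 + 14 * C) * ‖coef μ n - v‖ := by
    have e2 : ((1 - θ : ℝ) : ℂ) * (w - v) = (coef μ n - v) - (coef μ n - ((θ : ℂ) * v + ((1 - θ : ℝ) : ℂ) * w)) := by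
      push_cast
      ring
    have e3 : (1 - θ) * ‖w - v‖ = ‖((1 - θ : ℝ) : ℂ) * (w - v)‖ := by
      rw [norm_mul, Complex.norm_real, Real.norm_eq_abs, abs_of_nonneg (by linarith)]
    rw [e3, e2]
    refine (norm_sub_le _ _).trans ?_
    have h3 : ‖coef μ n - ((θ : ℂ) * v + ((1 - θ : ℝ) : ℂ) * w)‖ ≤ 14 * C * d := by
      refine (Complex.norm_le_abs_re_add_abs_im _).trans ?_
      have er : (coef μ n - ((θ : ℂ) * v + ((1 - θ : ℝ) : ℂ) * w)).re =
          (coef μ n).re - (θ * v.re + (1 - θ) * w.re) := by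
        simp
      have ei : (coef μ n - ((θ : ℂ) * v + ((1 - θ : ℝ) : ℂ) * w)).im =
          (coef μ n).im - (θ * v.im + (1 - θ) * w.im) := by
        simp
      rw [er, ei]
      have h7 : ((7 : NNReal) : ℝ) = 7 := by norm_num
      rw [h7] at hre him
      linarith
    have h4 : 14 * C * d ≤ 14 * C * ‖coef μ n - v‖ := mul_le_mul_of_nonneg_left hdle (by positivity)
    linarith
  have hθ2 : 1 - θ ≤ C₁ * ‖coef μ n - v‖ := by
    rw [hC₁, div_mul_eq_mul_div, le_div_iff₀ hpos]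
    exact hθ
  have h5 := h2 K g hg
  have h6 : |∫ x, g x ∂ρ - ∫ x, g x ∂ν| ≤ 2 * K := by
    have a1 := lip_int (ν := ν) hg
    have a2 := lip_int (ν := ρ) hg
    rw [abs_le] at a1 a2 ⊢
    constructor <;> linarith [a1.1, a1.2, a2.1, a2.2]
  have e4 : ∫ x, g (n • x) ∂μ - ∫ x, g x ∂ν =
      (∫ x, g (n • x) ∂μ - (θ * ∫ x, g x ∂ν + (1 - θ) * ∫ x, g x ∂ρ)) +
        (1 - θ) * (∫ x, g x ∂ρ - ∫ x, g x ∂ν) := by
    ring
  rw [e4]
  refine (abs_add_le _ _).trans ?_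
  rw [abs_mul, abs_of_nonneg (by linarith : (0 : ℝ) ≤ 1 - θ)]
  have h8 : (1 - θ) * |∫ x, g x ∂ρ - ∫ x, g x ∂ν| ≤ C₁ * ‖coef μ n - v‖ * (2 * K) :=
    mul_le_mul hθ2 h6 (abs_nonneg _) (by positivity)
  have h9 : C * K * d ≤ C * K * ‖coef μ n - v‖ := mul_le_mul_of_nonneg_left hdle (by positivity)
  calc _ ≤ C * K * ‖coef μ n - v‖ + C₁ * ‖coef μ n - v‖ * (2 * K) := add_le_add (h5.trans h9) h8
    _ = _ := by ring

/-! ## Equality of measures -/

theorem meas_ext {μ ν : Measure (AddCircle (1 : ℝ))} [hμ : IsProbabilityMeasure μ] [hν : IsProbabilityMeasure ν]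
    (h : ∀ (K : NNReal) (g : AddCircle (1 : ℝ) → ℝ), LipschitzWith K g → ∫ x, g x ∂μ = ∫ x, g x ∂ν) : μ = ν := by
  let μ' : ProbabilityMeasure (AddCircle (1 : ℝ)) := ⟨μ, hμ⟩
  let ν' : ProbabilityMeasure (AddCircle (1 : ℝ)) := ⟨ν, hν⟩
  have h1 : Filter.Tendsto (fun _ : ℕ => ν') Filter.atTop (nhds μ') := by
    rw [tendsto_iff_forall_lipschitz_integral_tendsto]
    rintro f - ⟨L, hL⟩
    have h2 : ∫ x, f x ∂(ν' : Measure (AddCircle (1 : ℝ))) = ∫ x, f x ∂(μ' : Measure (AddCircle (1 : ℝ))) :=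
      (h L f hL).symm
    rw [h2]
    exact tendsto_const_nhds
  have h3 : ν' = μ' := tendsto_nhds_unique tendsto_const_nhds h1
  exact (congrArg (fun ξ : ProbabilityMeasure (AddCircle (1 : ℝ)) => (ξ : Measure (AddCircle (1 : ℝ)))) h3).symm

/-- A measure whose coefficient is the vertex is the orbit measure. -/
theorem stabV_eq {v : ℂ} {ν : Measure (AddCircle (1 : ℝ))} [IsProbabilityMeasure ν] (h : StabV v ν) {n : ℤ}
    {μ : Measure (AddCircle (1 : ℝ))} (hμ : Inv μ) (hc : coef μ n = v) : (μ.map fun x => n • x) = ν := by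
  obtain ⟨C, hC, h⟩ := h
  have hP := (fin_push hμ n).1
  refine meas_ext fun K g hg => ?_
  have h1 := h n μ hμ K g hg
  rw [hc, sub_self, norm_zero, mul_zero, ← push_int μ n hg.continuous] at h1
  exact sub_eq_zero.mp (abs_nonpos_iff.mp h1)

/-! ## An open set of functions -/

theorem cone {ι : Type*} [Fintype ι] (V : ι → ℂ) (i : ι) (ζ : ℂ)
    (hζ : ∀ j, j ≠ i → (ζ * V j).re < (ζ * V i).re) :
    ∃ κ : ℝ, 0 < κ ∧ ∀ c ∈ convexHull ℝ (Set.range V), κ * ‖c - V i‖ ≤ (ζ * V i).re - (ζ * c).re := by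
  have h1 : ∀ j, ∃ κ : ℝ, 0 < κ ∧ κ * ‖V j - V i‖ ≤ (ζ * V i).re - (ζ * V j).re := by
    intro j
    rcases eq_or_ne j i with h | h
    · refine ⟨1, one_pos, ?_⟩
      rw [h]
      simp
    · have hlt := hζ j h
      have hne : V j ≠ V i := by
        intro he
        rw [he] at hlt
        exact lt_irrefl _ hlt
      have hpos : 0 < ‖V j - V i‖ := norm_pos_iff.mpr (sub_ne_zero.mpr hne)
      refine ⟨((ζ * V i).re - (ζ * V j).re) / ‖V j - V i‖, div_pos (by linarith) hpos, ?_⟩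
      rw [div_mul_cancel₀ _ hpos.ne']
  choose κ hκ0 hκ using h1
  have hne : (Finset.univ : Finset ι).Nonempty := ⟨i, Finset.mem_univ i⟩
  refine ⟨Finset.univ.inf' hne κ, ?_, ?_⟩
  · rw [Finset.lt_inf'_iff]
    exact fun j _ => hκ0 j
  set k : ℝ := Finset.univ.inf' hne κ with hk
  have hk0 : 0 < k := by
    rw [hk, Finset.lt_inf'_iff]
    exact fun j _ => hκ0 j
  have hconv : Convex ℝ {c : ℂ | k * ‖c - V i‖ ≤ (ζ * V i).re - (ζ * c).re} := by
    intro x hx y hy a b ha hb hab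
    have hx' : k * ‖x - V i‖ ≤ (ζ * V i).re - (ζ * x).re := hx
    have hy' : k * ‖y - V i‖ ≤ (ζ * V i).re - (ζ * y).re := hy
    change k * ‖a • x + b • y - V i‖ ≤ (ζ * V i).re - (ζ * (a • x + b • y)).re
    have e1 : a • x + b • y - V i = a • (x - V i) + b • (y - V i) := by
      have : V i = a • V i + b • V i := by rw [← add_smul, hab, one_smul]
      conv_lhs => rw [this]
      rw [smul_sub, smul_sub]
      abel
    have e2 : (ζ * (a • x + b • y)).re = a * (ζ * x).re + b * (ζ * y).re := by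
      simp only [Complex.real_smul, mul_re, add_re, add_im, mul_im, ofReal_re, ofReal_im]
      ring
    have e3 : ‖a • (x - V i) + b • (y - V i)‖ ≤ a * ‖x - V i‖ + b * ‖y - V i‖ := by
      refine (norm_add_le _ _).trans (le_of_eq ?_)
      rw [norm_smul, norm_smul, Real.norm_eq_abs, Real.norm_eq_abs, abs_of_nonneg ha, abs_of_nonneg hb]
    rw [e1, e2]
    have e4 : (ζ * V i).re = a * (ζ * V i).re + b * (ζ * V i).re := by rw [← add_mul, hab, one_mul]
    calc k * ‖a • (x - V i) + b • (y - V i)‖ ≤ k * (a * ‖x - V i‖ + b * ‖y - V i‖) := by gcongr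
      _ = a * (k * ‖x - V i‖) + b * (k * ‖y - V i‖) := by ring
      _ ≤ a * ((ζ * V i).re - (ζ * x).re) + b * ((ζ * V i).re - (ζ * y).re) := by gcongr
      _ = (ζ * V i).re - (a * (ζ * x).re + b * (ζ * y).re) := by linear_combination -e4
  have hsub : Set.range V ⊆ {c : ℂ | k * ‖c - V i‖ ≤ (ζ * V i).re - (ζ * c).re} := by
    rintro _ ⟨j, rfl⟩
    refine le_trans (mul_le_mul_of_nonneg_right ?_ (norm_nonneg _)) (hκ j)
    exact Finset.inf'_le _ (Finset.mem_univ j)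
  exact fun c hc => convexHull_min hsub hconv hc

theorem open_set {ι : Type*} [Fintype ι] (V : ι → ℂ) (i : ι) {ν : Measure (AddCircle (1 : ℝ))}
    [IsProbabilityMeasure ν] (hν : coef ν 1 = V i) (hS : StabV (V i) ν)
    (hull : ∀ n : ℤ, n ≠ 0 → ∀ μ : Measure (AddCircle (1 : ℝ)), Inv μ → coef μ n ∈ convexHull ℝ (Set.range V))
    (ζ : ℂ) (hζ : ∀ j, j ≠ i → (ζ * V j).re < (ζ * V i).re) :
    ∃ ε : NNReal, 0 < ε ∧ ∀ g : AddCircle (1 : ℝ) → ℝ, LipschitzWith ε g →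
      ∀ n : ℤ, n ≠ 0 → ∀ μ : Measure (AddCircle (1 : ℝ)), Inv μ → (μ.map fun x => n • x) ≠ ν →
        ∫ x, ((ζ * fourier 1 (n • x)).re + g (n • x)) ∂μ < ∫ x, ((ζ * fourier 1 x).re + g x) ∂ν := by
  obtain ⟨κ, hκ0, hκ⟩ := cone V i ζ hζ
  have hS' := hS
  obtain ⟨C, hC, hS⟩ := hS
  refine ⟨⟨κ / (2 * (C + 1)), by positivity⟩, ?_, ?_⟩
  · rw [← NNReal.coe_lt_coe]
    change (0 : ℝ) < κ / (2 * (C + 1))
    positivity
  intro g hg n hn μ hμ hne
  have hP := hμ.1
  have hgc := hg.continuous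
  have hcne : coef μ n ≠ V i := fun h => hne (stabV_eq hS' hμ h)
  have hpos : 0 < ‖coef μ n - V i‖ := norm_pos_iff.mpr (sub_ne_zero.mpr hcne)
  have hre : ∀ (ρ : Measure (AddCircle (1 : ℝ))) [IsProbabilityMeasure ρ] (l : ℤ),
      ∫ x, ((ζ * fourier 1 (l • x)).re + g (l • x)) ∂ρ = (ζ * coef ρ l).re + ∫ x, g (l • x) ∂ρ := by
    intro ρ hρ l
    have i1 : Integrable (fun x : AddCircle (1 : ℝ) => ζ * (fourier l x : ℂ)) ρ :=
      (mea_integrable (fourier l).continuous).const_mul _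
    have e1 : ∀ x : AddCircle (1 : ℝ), (fourier 1 (l • x) : ℂ) = fourier l x := by
      intro x
      rw [fin_fourier, mul_one]
    simp only [e1]
    have i1r : Integrable (fun x : AddCircle (1 : ℝ) => (ζ * (fourier l x : ℂ)).re) ρ := i1.re
    have i2 : Integrable (fun x : AddCircle (1 : ℝ) => g (l • x)) ρ :=
      mea_integrable (hgc.comp (continuous_zsmul l))
    rw [integral_add i1r i2]
    congr 1
    unfold coef
    rw [← integral_const_mul]
    exact integral_re i1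
  have h1 := hre μ n
  have h2 := hre ν 1
  simp only [one_smul] at h2
  rw [h1, h2, hν]
  have h3 := hκ _ (hull n hn μ hμ)
  have h4 := hS n μ hμ _ g hg
  have h5 : C * (κ / (2 * (C + 1))) * ‖coef μ n - V i‖ < κ * ‖coef μ n - V i‖ := by
    refine mul_lt_mul_of_pos_right ?_ hpos
    rw [mul_div_assoc', div_lt_iff₀ (by positivity)]
    nlinarith
  have h6 : |∫ x, g (n • x) ∂μ - ∫ x, g x ∂ν| ≤ C * (κ / (2 * (C + 1))) * ‖coef μ n - V i‖ := h4
  have h7 := (le_abs_self _).trans h6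
  linarith

end Pool.Agent.HexS
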