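import Pool.Agent.Hex.Certs

/-!
# Every direction has its maximum over the six vertices on one side only
-/

open Complex ComplexConjugate
open Pool.Agent.Hex

namespace Pool.Agent.HexS

theorem geo_upper {a β x₁ y₁ x₂ y₂ : ℝ} (hx₁ : 0.164183 ≤ x₁) (hx₁' : x₁ ≤ 0.164203) (hy₁ : 0.189556 ≤ y₁)
    (hy₁' : y₁ ≤ 0.189576) (hx₂ : -0.045465 ≤ x₂) (hx₂' : x₂ ≤ -0.045445) (hy₂ : 0.217982 ≤ y₂)
    (hy₂' : y₂ ≤ 0.218002) (hβ : 0 < β) :
    (0.18 * β ≤ a ∧ a * x₂ + β * y₂ < a * x₁ + β * y₁ ∧ -a / 4 < a * x₁ + β * y₁ ∧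
      a * x₂ - β * y₂ < a * x₁ + β * y₁ ∧ a * x₁ - β * y₁ < a * x₁ + β * y₁) ∨
    (a < a * x₁ + β * y₁ ∧ -a / 4 < a * x₂ + β * y₂ ∧ a * x₂ - β * y₂ < a * x₂ + β * y₂ ∧
      a * x₁ - β * y₁ < a * x₁ + β * y₁) ∨
    (a < a * x₂ + β * y₂ ∧ a * x₁ + β * y₁ < a * x₂ + β * y₂ ∧ a * x₂ - β * y₂ < a * x₂ + β * y₂ ∧
      a * x₁ - β * y₁ < a * x₂ + β * y₂) := by
  have b1 : 0.189556 * β ≤ β * y₁ := by nlinarith
  have b2 : β * y₁ ≤ 0.189576 * β := by nlinarith
  have b3 : 0.217982 * β ≤ β * y₂ := by nlinarith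
  have b4 : β * y₂ ≤ 0.218002 * β := by nlinarith
  rcases le_or_gt (0.18 * β) a with h | h
  · left
    have ha : 0 < a := by nlinarith
    have c1 : 0.164183 * a ≤ a * x₁ := by nlinarith
    have c2 : a * x₂ ≤ -0.045445 * a := by nlinarith
    refine ⟨h, ?_, ?_, ?_, ?_⟩ <;> linarith
  · right
    rcases le_or_gt (-0.5 * β) a with h' | h'
    · left
      have c1 : -a * (1 - x₁) ≥ -(0.18 * β) * (1 - x₁) := by nlinarith
      have c2 : 0.18 * β * (1 - x₁) ≤ 0.18 * β * (1 - 0.164183) := by nlinarith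
      have c3 : (-0.5 * β) * (x₂ + 1 / 4) ≤ a * (x₂ + 1 / 4) := by nlinarith
      have c4 : 0.5 * β * (x₂ + 1 / 4) ≤ 0.5 * β * (-0.045445 + 1 / 4) := by nlinarith
      refine ⟨?_, ?_, ?_, ?_⟩ <;> linarith
    · right
      have ha : a < 0 := by nlinarith
      have c1 : a * x₁ ≤ 0.164183 * a := by nlinarith
      have c2 : -0.045445 * a ≤ a * x₂ := by nlinarith
      refine ⟨?_, ?_, ?_, ?_⟩ <;> linarith

/-- The values of `Re (ζ w)` at the six vertices. -/
noncomputable def six (a b x₁ y₁ x₂ y₂ : ℝ) : Fin 6 → ℝ :=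
  ![a, a * x₁ - b * y₁, a * x₂ - b * y₂, -a / 4, a * x₂ + b * y₂, a * x₁ + b * y₁]

theorem geo_six {a b x₁ y₁ x₂ y₂ : ℝ} (hx₁ : 0.164183 ≤ x₁) (hx₁' : x₁ ≤ 0.164203) (hy₁ : 0.189556 ≤ y₁)
    (hy₁' : y₁ ≤ 0.189576) (hx₂ : -0.045465 ≤ x₂) (hx₂' : x₂ ≤ -0.045445) (hy₂ : 0.217982 ≤ y₂)
    (hy₂' : y₂ ≤ 0.218002) (h : a ≠ 0 ∨ b ≠ 0) :
    ∃ i : Fin 6, ∀ j, j ≠ i → j ≠ i + 1 →
      six a b x₁ y₁ x₂ y₂ j < max (six a b x₁ y₁ x₂ y₂ i) (six a b x₁ y₁ x₂ y₂ (i + 1)) := by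
  rcases lt_trichotomy b 0 with hb | hb | hb
  · have e1 : ∀ t : ℝ, a * x₁ + -b * t = a * x₁ - b * t := fun t => by ring
    have e2 : ∀ t : ℝ, a * x₁ - -b * t = a * x₁ + b * t := fun t => by ring
    have e3 : ∀ t : ℝ, a * x₂ + -b * t = a * x₂ - b * t := fun t => by ring
    have e4 : ∀ t : ℝ, a * x₂ - -b * t = a * x₂ + b * t := fun t => by ring
    rcases geo_upper (a := a) hx₁ hx₁' hy₁ hy₁' hx₂ hx₂' hy₂ hy₂' (neg_pos.mpr hb) with
      ⟨-, g1, g2, g3, g4⟩ | ⟨g1, g2, g3, g4⟩ | ⟨g1, g2, g3, g4⟩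
    · rw [e1, e3] at g1
      rw [e1] at g2
      rw [e1, e4] at g3
      rw [e1, e2] at g4
      refine ⟨0, fun j hj hj' => ?_⟩
      fin_cases j
      · exact absurd rfl hj
      · exact absurd rfl hj'
      · exact lt_max_of_lt_right g1
      · exact lt_max_of_lt_right g2
      · exact lt_max_of_lt_right g3
      · exact lt_max_of_lt_right g4
    · rw [e1] at g1
      rw [e3] at g2
      rw [e3, e4] at g3
      rw [e1, e2] at g4
      refine ⟨1, fun j hj hj' => ?_⟩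
      fin_cases j
      · exact lt_max_of_lt_left g1
      · exact absurd rfl hj
      · exact absurd rfl hj'
      · exact lt_max_of_lt_right g2
      · exact lt_max_of_lt_right g3
      · exact lt_max_of_lt_left g4
    · rw [e3] at g1
      rw [e1, e3] at g2
      rw [e3, e4] at g3
      rw [e2, e3] at g4
      refine ⟨2, fun j hj hj' => ?_⟩
      fin_cases j
      · exact lt_max_of_lt_left g1
      · exact lt_max_of_lt_left g2
      · exact absurd rfl hj
      · exact absurd rfl hj'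
      · exact lt_max_of_lt_left g3
      · exact lt_max_of_lt_left g4
  · subst hb
    have ha : a ≠ 0 := by
      rcases h with h | h
      · exact h
      · exact absurd rfl h
    rcases lt_or_gt_of_ne ha with ha | ha
    · refine ⟨3, fun j hj hj' => ?_⟩
      have g1 : a < -a / 4 := by linarith
      have g2 : a * x₁ - 0 * y₁ < -a / 4 := by nlinarith
      have g3 : a * x₂ - 0 * y₂ < -a / 4 := by nlinarith
      have g4 : a * x₁ + 0 * y₁ < -a / 4 := by nlinarith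
      fin_cases j
      · exact lt_max_of_lt_left g1
      · exact lt_max_of_lt_left g2
      · exact lt_max_of_lt_left g3
      · exact absurd rfl hj
      · exact absurd rfl hj'
      · exact lt_max_of_lt_left g4
    · refine ⟨0, fun j hj hj' => ?_⟩
      have g1 : -a / 4 < a := by linarith
      have g2 : a * x₂ - 0 * y₂ < a := by nlinarith
      have g3 : a * x₂ + 0 * y₂ < a := by nlinarith
      have g4 : a * x₁ + 0 * y₁ < a := by nlinarith
      fin_cases j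
      · exact absurd rfl hj
      · exact absurd rfl hj'
      · exact lt_max_of_lt_left g2
      · exact lt_max_of_lt_left g1
      · exact lt_max_of_lt_left g3
      · exact lt_max_of_lt_left g4
  · rcases geo_upper (a := a) hx₁ hx₁' hy₁ hy₁' hx₂ hx₂' hy₂ hy₂' hb with
      ⟨-, g1, g2, g3, g4⟩ | ⟨g1, g2, g3, g4⟩ | ⟨g1, g2, g3, g4⟩
    · refine ⟨5, fun j hj hj' => ?_⟩
      fin_cases j
      · exact absurd rfl hj'
      · exact lt_max_of_lt_left g4
      · exact lt_max_of_lt_left g3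
      · exact lt_max_of_lt_left g2
      · exact lt_max_of_lt_left g1
      · exact absurd rfl hj
    · refine ⟨4, fun j hj hj' => ?_⟩
      fin_cases j
      · exact lt_max_of_lt_right g1
      · exact lt_max_of_lt_right g4
      · exact lt_max_of_lt_left g3
      · exact lt_max_of_lt_left g2
      · exact absurd rfl hj
      · exact absurd rfl hj'
    · refine ⟨3, fun j hj hj' => ?_⟩
      fin_cases j
      · exact lt_max_of_lt_right g1
      · exact lt_max_of_lt_right g4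
      · exact lt_max_of_lt_right g3
      · exact absurd rfl hj
      · exact absurd rfl hj'
      · exact lt_max_of_lt_right g2

theorem six_eq (ζ : ℂ) (j : Fin 6) :
    (ζ * (![1, vtx 431 43, vtx 23 11, -1 / 4, conj (vtx 23 11), conj (vtx 431 43)] : Fin 6 → ℂ) j).re =
      six ζ.re ζ.im (vtx 431 43).re (vtx 431 43).im (vtx 23 11).re (vtx 23 11).im j := by
  have e : (-1 / 4 : ℂ) = ((-1 / 4 : ℝ) : ℂ) := by push_cast; ring
  fin_cases j
  · show (ζ * 1).re = ζ.re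
    rw [mul_one]
  · exact Complex.mul_re _ _
  · exact Complex.mul_re _ _
  · show (ζ * (-1 / 4)).re = -ζ.re / 4
    rw [e, Complex.re_mul_ofReal]
    ring
  · show (ζ * conj (vtx 23 11)).re = ζ.re * (vtx 23 11).re + ζ.im * (vtx 23 11).im
    rw [Complex.mul_re, Complex.conj_re, Complex.conj_im]
    ring
  · show (ζ * conj (vtx 431 43)).re = ζ.re * (vtx 431 43).re + ζ.im * (vtx 431 43).im
    rw [Complex.mul_re, Complex.conj_re, Complex.conj_im]
    ring

theorem vertex_bounds : (0.164183 ≤ (vtx 431 43).re ∧ (vtx 431 43).re ≤ 0.164203) ∧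
    (0.189556 ≤ (vtx 431 43).im ∧ (vtx 431 43).im ≤ 0.189576) ∧
    (-0.045465 ≤ (vtx 23 11).re ∧ (vtx 23 11).re ≤ -0.045445) ∧
    (0.217982 ≤ (vtx 23 11).im ∧ (vtx 23 11).im ≤ 0.218002) := by
  have h1 := (Complex.abs_re_le_norm _).trans vtx_431
  have h2 := (Complex.abs_im_le_norm _).trans vtx_431
  have h3 := (Complex.abs_re_le_norm _).trans vtx_23
  have h4 := (Complex.abs_im_le_norm _).trans vtx_23
  simp only [Complex.sub_re, Complex.sub_im] at h1 h2 h3 h4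
  rw [abs_le] at h1 h2 h3 h4
  obtain ⟨h1a, h1b⟩ := h1
  obtain ⟨h2a, h2b⟩ := h2
  obtain ⟨h3a, h3b⟩ := h3
  obtain ⟨h4a, h4b⟩ := h4
  refine ⟨⟨?_, ?_⟩, ⟨?_, ?_⟩, ⟨?_, ?_⟩, ⟨?_, ?_⟩⟩ <;> linarith

end Pool.Agent.HexS
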