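import Pool.Agent.HexS.EngS

/-!
# Integration: the mean distance to the two orbits is bounded by the distance to the side
-/

open MeasureTheory Complex ComplexConjugate Polynomial
open Pool.Agent.Hex

namespace Pool.Agent.HexS

/-- The distance of `z` to the finite set `S`. -/
noncomputable def dst (S : Finset ℂ) (z : ℂ) : ℝ := Metric.infDist z (S : Set ℂ)

theorem dst_nonneg (S : Finset ℂ) (z : ℂ) : 0 ≤ dst S z := Metric.infDist_nonneg

theorem dst_cont (S : Finset ℂ) : Continuous (dst S) := Metric.continuous_infDist_pt _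

theorem dst_le {S : Finset ℂ} {p : ℂ} (hp : p ∈ S) (z : ℂ) : dst S z ≤ ‖z - p‖ := by
  rw [← dist_eq_norm]
  exact Metric.infDist_le_dist_of_mem (Finset.mem_coe.mpr hp)

theorem dst_exists {S : Finset ℂ} (hS : S.Nonempty) (z : ℂ) : ∃ p ∈ S, dst S z = ‖z - p‖ := by
  obtain ⟨p, hp, h⟩ := S.finite_toSet.isCompact.exists_infDist_eq_dist (Finset.coe_nonempty.mpr hS) z
  exact ⟨p, Finset.mem_coe.mp hp, by rw [← dist_eq_norm]; exact h⟩

/-- The side of the hexagon with the quadratic rate. -/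
def SideQ (n₁ L₁ n₂ L₂ : ℕ) : Prop :=
  ∃ C : ℝ, 0 ≤ C ∧ ∀ μ : Measure (AddCircle (1 : ℝ)), Inv μ →
    ∫ x, dst (orb n₁ L₁ ∪ orb n₂ L₂) (fourier 1 x : ℂ) ^ 2 ∂μ ≤
      C * (conj (vtx n₂ L₂ - vtx n₁ L₁) * (coef μ 1 - vtx n₁ L₁)).im

/-- The side of the hexagon with the linear rate. -/
def SideL (n₁ L₁ n₂ L₂ : ℕ) : Prop :=
  ∃ C : ℝ, 0 ≤ C ∧ ∀ μ : Measure (AddCircle (1 : ℝ)), Inv μ →
    ∫ x, dst (orb n₁ L₁ ∪ orb n₂ L₂) (fourier 1 x : ℂ) ∂μ ≤
      C * (conj (vtx n₂ L₂ - vtx n₁ L₁) * (coef μ 1 - vtx n₁ L₁)).im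

/-- Integration: a good function gives the side with the quadratic rate. -/
theorem sideQ_of_good {n₁ L₁ n₂ L₂ : ℕ} (h1 : 0 < L₁) (h2 : 0 < L₂) (G₂ G₃ : ℂ[X])
    (h : GoodS (orb n₁ L₁ ∪ orb n₂ L₂) (hE n₁ L₁ n₂ L₂ G₂ G₃)) : SideQ n₁ L₁ n₂ L₂ := by
  obtain ⟨u, c, hc0, hum, ⟨C, hC⟩, hkey⟩ := h
  refine ⟨L₁ * L₂ / c, by positivity, ?_⟩
  intro μ hμ
  obtain ⟨hP, hp2, hp3⟩ := hμ
  have hφ : Continuous fun x : AddCircle (1 : ℝ) => (fourier 1 x : ℂ) := (fourier 1).continuous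
  -- the two coboundary terms and the bounded function
  have hui : Integrable (fun x : AddCircle (1 : ℝ) => u (fourier 1 x : ℂ)) μ :=
    Integrable.of_bound (hum.comp hφ.measurable).aestronglyMeasurable C
      (Filter.Eventually.of_forall fun x => by
        rw [Real.norm_eq_abs]
        exact hC _ (mea_norm x))
  have hu2i : Integrable (fun x : AddCircle (1 : ℝ) => u ((fourier 1 x : ℂ) ^ 2)) μ :=
    Integrable.of_bound (hum.comp (hφ.pow 2).measurable).aestronglyMeasurable C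
      (Filter.Eventually.of_forall fun x => by
        rw [Real.norm_eq_abs]
        exact hC _ (by rw [norm_pow, mea_norm, one_pow]))
  have hu2 : ∫ x, u ((fourier 1 x : ℂ) ^ 2) ∂μ = ∫ x, u (fourier 1 x : ℂ) ∂μ := by
    rw [← mea_int_comp hp2 (fun x => u (fourier 1 x : ℂ)) hui.aestronglyMeasurable]
    simp only [mea_nsmul]
  have hG : ∀ (G : ℂ[X]) (k : ℕ), MeasurePreserving (fun x : AddCircle (1 : ℝ) => k • x) μ μ →
      ∫ x, (G.eval ((fourier 1 x : ℂ) ^ k) - G.eval (fourier 1 x : ℂ)) ∂μ = 0 := by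
    intro G k hk
    have hc : Continuous fun x : AddCircle (1 : ℝ) => G.eval ((fourier 1 x : ℂ) ^ k) :=
      G.continuous.comp (hφ.pow k)
    rw [integral_sub (mea_integrable hc) (mea_integrable (mea_cont G)), sub_eq_zero]
    rw [← mea_int_comp hk (fun x => G.eval (fourier 1 x : ℂ)) (mea_cont G).aestronglyMeasurable]
    simp only [mea_nsmul]
  -- the polynomial part
  set P : AddCircle (1 : ℝ) → ℂ := fun x => sE n₁ L₁ n₂ L₂ * (fourier 1 x : ℂ) +
    (G₂.eval ((fourier 1 x : ℂ) ^ 2) - G₂.eval (fourier 1 x : ℂ)) +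
    (G₃.eval ((fourier 1 x : ℂ) ^ 3) - G₃.eval (fourier 1 x : ℂ)) with hPdef
  have hc2 : Continuous fun x : AddCircle (1 : ℝ) =>
      (G₂.eval ((fourier 1 x : ℂ) ^ 2) - G₂.eval (fourier 1 x : ℂ)) :=
    (G₂.continuous.comp (hφ.pow 2)).sub (mea_cont G₂)
  have hc3 : Continuous fun x : AddCircle (1 : ℝ) =>
      (G₃.eval ((fourier 1 x : ℂ) ^ 3) - G₃.eval (fourier 1 x : ℂ)) :=
    (G₃.continuous.comp (hφ.pow 3)).sub (mea_cont G₃)
  have hc1 : Continuous fun x : AddCircle (1 : ℝ) => sE n₁ L₁ n₂ L₂ * (fourier 1 x : ℂ) :=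
    continuous_const.mul hφ
  have hPc : Continuous P := (hc1.add hc2).add hc3
  have hPint : ∫ x, P x ∂μ = sE n₁ L₁ n₂ L₂ * coef μ 1 := by
    have h3 := mea_add3 (mea_integrable (μ := μ) hc1) (mea_integrable hc2) (mea_integrable hc3)
    rw [hG G₂ 2 hp2, hG G₃ 3 hp3, add_zero, add_zero, integral_const_mul] at h3
    exact h3
  have hPre : ∫ x, (P x).re ∂μ = (sE n₁ L₁ n₂ L₂ * coef μ 1).re := by
    rw [← hPint]
    exact integral_re (mea_integrable hPc)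
  have hPri : Integrable (fun x => (P x).re) μ := (mea_integrable hPc).re
  -- the whole function
  set f : AddCircle (1 : ℝ) → ℝ := fun x => tE n₁ L₁ n₂ L₂ + (P x).re + u (fourier 1 x : ℂ) -
    u ((fourier 1 x : ℂ) ^ 2) with hfdef
  have hfe : ∀ x, f x = hE n₁ L₁ n₂ L₂ G₂ G₃ (fourier 1 x : ℂ) + u (fourier 1 x : ℂ) -
      u ((fourier 1 x : ℂ) ^ 2) := fun x => rfl
  have hf0 : ∀ x, c * dst (orb n₁ L₁ ∪ orb n₂ L₂) (fourier 1 x : ℂ) ^ 2 ≤ f x := fun x => by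
    rw [hfe]
    obtain ⟨p, hp, hp2⟩ := hkey _ (mea_norm x)
    refine le_trans ?_ hp2
    have h5 := dst_le hp (fourier 1 x : ℂ)
    have h6 := dst_nonneg (orb n₁ L₁ ∪ orb n₂ L₂) (fourier 1 x : ℂ)
    gcongr
  have hfi : Integrable f μ := (((integrable_const _).add hPri).add hui).sub hu2i
  have hfint : ∫ x, f x ∂μ = (L₁ : ℝ) * L₂ *
      (conj (vtx n₂ L₂ - vtx n₁ L₁) * (coef μ 1 - vtx n₁ L₁)).im := by
    rw [← mea_alg n₁ L₁ n₂ L₂ h1 h2]
    have h4 := mea_add4 (μ := μ) (tE n₁ L₁ n₂ L₂) hPri hui hu2i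
    rw [hu2, hPre, add_sub_cancel_right] at h4
    exact h4
  have hd : Integrable (fun x : AddCircle (1 : ℝ) => c * dst (orb n₁ L₁ ∪ orb n₂ L₂) (fourier 1 x : ℂ) ^ 2) μ :=
    mea_integrable (continuous_const.mul (((dst_cont _).comp hφ).pow 2))
  have h7 := integral_mono hd hfi hf0
  rw [integral_const_mul, hfint] at h7
  rw [div_mul_eq_mul_div, le_div_iff₀ hc0]
  linarith

end Pool.Agent.HexS
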