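import Pool.Agent.HexS.FinS

/-!
# A uniform open set of functions
-/

open MeasureTheory Complex ComplexConjugate
open Pool.Agent.Hex

namespace Pool.Agent.HexS

theorem segment_compact (v w : ℂ) : IsCompact (segment ℝ v w) := by
  rw [segment_eq_image']
  exact isCompact_Icc.image (by fun_prop)

theorem infDist_seg (v w x y : ℂ) {a b : ℝ} (ha : 0 ≤ a) (hb : 0 ≤ b) (hab : a + b = 1) :
    Metric.infDist (a • x + b • y) (segment ℝ v w) ≤
      a * Metric.infDist x (segment ℝ v w) + b * Metric.infDist y (segment ℝ v w) := by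
  have hne : (segment ℝ v w).Nonempty := ⟨v, left_mem_segment ℝ v w⟩
  obtain ⟨p, hp, hpd⟩ := (segment_compact v w).exists_infDist_eq_dist hne x
  obtain ⟨q, hq, hqd⟩ := (segment_compact v w).exists_infDist_eq_dist hne y
  have hmem : a • p + b • q ∈ segment ℝ v w := convex_segment v w hp hq ha hb hab
  refine (Metric.infDist_le_dist_of_mem hmem).trans ?_
  rw [hpd, hqd, dist_eq_norm, dist_eq_norm, dist_eq_norm]
  have e : a • x + b • y - (a • p + b • q) = a • (x - p) + b • (y - q) := by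
    rw [smul_sub, smul_sub]
    abel
  rw [e]
  refine (norm_add_le _ _).trans (le_of_eq ?_)
  rw [norm_smul, norm_smul, Real.norm_eq_abs, Real.norm_eq_abs, abs_of_nonneg ha, abs_of_nonneg hb]

theorem cone2 {ι : Type*} [Fintype ι] (V : ι → ℂ) (i k : ι) (ζ : ℂ) (hik : (ζ * V k).re = (ζ * V i).re)
    (hζ : ∀ j, j ≠ i → j ≠ k → (ζ * V j).re < (ζ * V i).re) :
    ∃ κ : ℝ, 0 < κ ∧ ∀ c ∈ convexHull ℝ (Set.range V),
      κ * Metric.infDist c (segment ℝ (V i) (V k)) ≤ (ζ * V i).re - (ζ * c).re := by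
  have h1 : ∀ j, ∃ κ : ℝ, 0 < κ ∧ κ * Metric.infDist (V j) (segment ℝ (V i) (V k)) ≤
      (ζ * V i).re - (ζ * V j).re := by
    intro j
    rcases eq_or_ne j i with h | h
    · refine ⟨1, one_pos, ?_⟩
      rw [h, Metric.infDist_zero_of_mem (left_mem_segment ℝ _ _)]
      simp
    rcases eq_or_ne j k with h' | h'
    · refine ⟨1, one_pos, ?_⟩
      rw [h', Metric.infDist_zero_of_mem (right_mem_segment ℝ _ _), hik]
      simp
    · have hlt := hζ j h h'
      have hd0 : 0 ≤ Metric.infDist (V j) (segment ℝ (V i) (V k)) := Metric.infDist_nonneg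
      have hpos : 0 < Metric.infDist (V j) (segment ℝ (V i) (V k)) + 1 := by linarith
      refine ⟨((ζ * V i).re - (ζ * V j).re) / (Metric.infDist (V j) (segment ℝ (V i) (V k)) + 1),
        div_pos (by linarith) hpos, ?_⟩
      rw [div_mul_eq_mul_div, div_le_iff₀ hpos]
      nlinarith
  choose κ hκ0 hκ using h1
  have hne : (Finset.univ : Finset ι).Nonempty := ⟨i, Finset.mem_univ i⟩
  set k' : ℝ := Finset.univ.inf' hne κ with hk
  have hk0 : 0 < k' := by
    rw [hk, Finset.lt_inf'_iff]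
    exact fun j _ => hκ0 j
  refine ⟨k', hk0, ?_⟩
  have hconv : Convex ℝ {c : ℂ | k' * Metric.infDist c (segment ℝ (V i) (V k)) ≤ (ζ * V i).re - (ζ * c).re} := by
    intro x hx y hy a b ha hb hab
    have hx' : k' * Metric.infDist x (segment ℝ (V i) (V k)) ≤ (ζ * V i).re - (ζ * x).re := hx
    have hy' : k' * Metric.infDist y (segment ℝ (V i) (V k)) ≤ (ζ * V i).re - (ζ * y).re := hy
    change k' * Metric.infDist (a • x + b • y) (segment ℝ (V i) (V k)) ≤
      (ζ * V i).re - (ζ * (a • x + b • y)).re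
    have e2 : (ζ * (a • x + b • y)).re = a * (ζ * x).re + b * (ζ * y).re := by
      simp only [Complex.real_smul, mul_re, add_re, add_im, mul_im, ofReal_re, ofReal_im]
      ring
    have e3 := infDist_seg (V i) (V k) x y ha hb hab
    rw [e2]
    have e4 : (ζ * V i).re = a * (ζ * V i).re + b * (ζ * V i).re := by rw [← add_mul, hab, one_mul]
    calc k' * Metric.infDist (a • x + b • y) (segment ℝ (V i) (V k)) ≤
        k' * (a * Metric.infDist x (segment ℝ (V i) (V k)) + b * Metric.infDist y (segment ℝ (V i) (V k))) := by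
          gcongr
      _ = a * (k' * Metric.infDist x (segment ℝ (V i) (V k))) +
          b * (k' * Metric.infDist y (segment ℝ (V i) (V k))) := by ring
      _ ≤ a * ((ζ * V i).re - (ζ * x).re) + b * ((ζ * V i).re - (ζ * y).re) := by gcongr
      _ = (ζ * V i).re - (a * (ζ * x).re + b * (ζ * y).re) := by linear_combination -e4
  have hsub : Set.range V ⊆ {c : ℂ | k' * Metric.infDist c (segment ℝ (V i) (V k)) ≤
      (ζ * V i).re - (ζ * c).re} := by
    rintro _ ⟨j, rfl⟩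
    refine le_trans (mul_le_mul_of_nonneg_right ?_ Metric.infDist_nonneg) (hκ j)
    exact Finset.inf'_le _ (Finset.mem_univ j)
  exact fun c hc => convexHull_min hsub hconv hc

/-! ## Mixtures -/

/-- `μ` is a mixture of two neighbours. -/
def Mix (O : Fin 6 → Measure (AddCircle (1 : ℝ))) (μ : Measure (AddCircle (1 : ℝ))) : Prop :=
  ∃ i : Fin 6, ∃ θ ∈ Set.Icc (0 : ℝ) 1, μ = ENNReal.ofReal θ • O i + ENNReal.ofReal (1 - θ) • O (i + 1)

theorem mix_of {μ ν ρ : Measure (AddCircle (1 : ℝ))} [IsProbabilityMeasure μ] [IsProbabilityMeasure ν]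
    [IsProbabilityMeasure ρ] {θ : ℝ} (h0 : 0 ≤ θ) (h1 : θ ≤ 1)
    (h : ∀ (K : NNReal) (g : AddCircle (1 : ℝ) → ℝ), LipschitzWith K g →
      ∫ x, g x ∂μ = θ * ∫ x, g x ∂ν + (1 - θ) * ∫ x, g x ∂ρ) :
    μ = ENNReal.ofReal θ • ν + ENNReal.ofReal (1 - θ) • ρ := by
  have h1' : 0 ≤ 1 - θ := by linarith
  have hP : IsProbabilityMeasure (ENNReal.ofReal θ • ν + ENNReal.ofReal (1 - θ) • ρ) := by
    refine ⟨?_⟩
    rw [Measure.add_apply, Measure.smul_apply, Measure.smul_apply, measure_univ, measure_univ,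
      smul_eq_mul, smul_eq_mul, mul_one, mul_one, ← ENNReal.ofReal_add h0 h1', add_sub_cancel,
      ENNReal.ofReal_one]
  refine meas_ext fun K g hg => ?_
  have hi1 : Integrable g ν := mea_integrable hg.continuous
  have hi2 : Integrable g ρ := mea_integrable hg.continuous
  rw [h K g hg, integral_add_measure (hi1.smul_measure ENNReal.ofReal_ne_top)
    (hi2.smul_measure ENNReal.ofReal_ne_top), integral_smul_measure, integral_smul_measure,
    ENNReal.toReal_ofReal h0, ENNReal.toReal_ofReal h1', smul_eq_mul, smul_eq_mul]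

theorem int_F {ρ : Measure (AddCircle (1 : ℝ))} [IsProbabilityMeasure ρ] (ζ : ℂ) {g : AddCircle (1 : ℝ) → ℝ}
    (hg : Continuous g) :
    ∫ x, ((ζ * fourier 1 x).re + g x) ∂ρ = (ζ * coef ρ 1).re + ∫ x, g x ∂ρ := by
  have i1 : Integrable (fun x : AddCircle (1 : ℝ) => ζ * (fourier 1 x : ℂ)) ρ :=
    (mea_integrable (fourier 1).continuous).const_mul _
  have i1r : Integrable (fun x : AddCircle (1 : ℝ) => (ζ * (fourier 1 x : ℂ)).re) ρ := i1.re
  rw [integral_add i1r (mea_integrable hg)]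
  congr 1
  unfold coef
  rw [← integral_const_mul]
  exact integral_re i1

/-! ## One direction -/

/-- The data of the six orbits. -/
structure Six (V : Fin 6 → ℂ) (O : Fin 6 → Measure (AddCircle (1 : ℝ))) : Prop where
  prob : ∀ i, IsProbabilityMeasure (O i)
  coef : ∀ i, Hex.coef (O i) 1 = V i
  stab : ∀ i, Stab (V i) (V (i + 1)) (O i) (O (i + 1))
  stabV : ∀ i, StabV (V i) (O i)
  hull : ∀ n : ℤ, n ≠ 0 → ∀ μ : Measure (AddCircle (1 : ℝ)), Inv μ → Hex.coef μ n ∈ convexHull ℝ (Set.range V)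

/-- The conclusion for one function. -/
def Concl (O : Fin 6 → Measure (AddCircle (1 : ℝ))) (ζ : ℂ) (g : AddCircle (1 : ℝ) → ℝ) : Prop :=
  ∀ μ : Measure (AddCircle (1 : ℝ)), Inv μ → Mix O μ ∨
    ∃ i, ∫ x, ((ζ * fourier 1 x).re + g x) ∂μ < ∫ x, ((ζ * fourier 1 x).re + g x) ∂(O i)

theorem map_one_smul (μ : Measure (AddCircle (1 : ℝ))) : (μ.map fun x : AddCircle (1 : ℝ) => (1 : ℤ) • x) = μ := by
  simp only [one_smul]
  exact Measure.map_id

theorem mix_self {O : Fin 6 → Measure (AddCircle (1 : ℝ))} (i : Fin 6) : Mix O (O i) := by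
  refine ⟨i, 1, ⟨by norm_num, le_refl _⟩, ?_⟩
  simp

theorem concl_peak {V : Fin 6 → ℂ} {O : Fin 6 → Measure (AddCircle (1 : ℝ))} (S : Six V O) (ζ : ℂ) (i : Fin 6)
    (hζ : ∀ j, j ≠ i → (ζ * V j).re < (ζ * V i).re) :
    ∃ ε : NNReal, 0 < ε ∧ ∀ g : AddCircle (1 : ℝ) → ℝ, LipschitzWith ε g → Concl O ζ g := by
  have hP := S.prob i
  obtain ⟨ε, hε, h⟩ := open_set V i (S.coef i) (S.stabV i) S.hull ζ hζ
  refine ⟨ε, hε, fun g hg μ hμ => ?_⟩
  by_cases he : μ = O i
  · left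
    rw [he]
    exact mix_self i
  · right
    refine ⟨i, ?_⟩
    have h3 := h g hg 1 one_ne_zero μ hμ (by rwa [map_one_smul])
    simp only [one_smul] at h3
    exact h3

theorem concl_side {V : Fin 6 → ℂ} {O : Fin 6 → Measure (AddCircle (1 : ℝ))} (S : Six V O) (ζ : ℂ) (i : Fin 6)
    (hi : (ζ * V (i + 1)).re = (ζ * V i).re)
    (hζ : ∀ j, j ≠ i → j ≠ i + 1 → (ζ * V j).re < (ζ * V i).re) :
    ∃ ε : NNReal, 0 < ε ∧ ∀ g : AddCircle (1 : ℝ) → ℝ, LipschitzWith ε g → Concl O ζ g := by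
  have hP := S.prob
  obtain ⟨κ, hκ0, hκ⟩ := cone2 V i (i + 1) ζ hi hζ
  obtain ⟨C, hC, hst⟩ := S.stab i
  refine ⟨⟨κ / (2 * (C + 1)), by positivity⟩, ?_, ?_⟩
  · rw [← NNReal.coe_lt_coe]
    change (0 : ℝ) < κ / (2 * (C + 1))
    positivity
  intro g hg μ hμ
  have hPμ := hμ.1
  have hgc := hg.continuous
  obtain ⟨θ, ⟨h0, h1⟩, h2⟩ := hst 1 μ hμ
  simp only [one_smul] at h2
  set d : ℝ := Metric.infDist (coef μ 1) (segment ℝ (V i) (V (i + 1))) with hd
  have hd0 : 0 ≤ d := Metric.infDist_nonneg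
  rcases eq_or_lt_of_le hd0 with hz | hpos
  · left
    refine ⟨i, θ, ⟨h0, h1⟩, mix_of h0 h1 fun K g' hg' => ?_⟩
    have h3 := h2 K g' hg'
    rw [← hz, mul_zero] at h3
    exact sub_eq_zero.mp (abs_nonpos_iff.mp h3)
  · right
    by_contra hcon
    push Not at hcon
    have c1 := hcon i
    have c2 := hcon (i + 1)
    rw [int_F ζ hgc, int_F ζ hgc, S.coef] at c1 c2
    have h3 : |∫ x, g x ∂μ - (θ * ∫ x, g x ∂(O i) + (1 - θ) * ∫ x, g x ∂(O (i + 1)))| ≤
        C * (κ / (2 * (C + 1))) * d := h2 _ g hg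
    have h4 := (le_abs_self _).trans h3
    have h5 := hκ _ (S.hull 1 one_ne_zero μ hμ)
    rw [← hd] at h5
    have h6 : C * (κ / (2 * (C + 1))) * d < κ * d := by
      refine mul_lt_mul_of_pos_right ?_ hpos
      rw [mul_div_assoc', div_lt_iff₀ (by positivity)]
      nlinarith
    have c3 : θ * ((ζ * V i).re + ∫ x, g x ∂(O i)) + (1 - θ) * ((ζ * V (i + 1)).re + ∫ x, g x ∂(O (i + 1))) ≤
        (ζ * coef μ 1).re + ∫ x, g x ∂μ := by
      have a1 := mul_le_mul_of_nonneg_left c1 h0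
      have a2 := mul_le_mul_of_nonneg_left c2 (by linarith : (0 : ℝ) ≤ 1 - θ)
      calc _ ≤ θ * ((ζ * coef μ 1).re + ∫ x, g x ∂μ) + (1 - θ) * ((ζ * coef μ 1).re + ∫ x, g x ∂μ) :=
            add_le_add a1 a2
        _ = _ := by ring
    rw [hi] at c3
    have c4 : (ζ * V i).re + (θ * ∫ x, g x ∂(O i) + (1 - θ) * ∫ x, g x ∂(O (i + 1))) ≤
        (ζ * coef μ 1).re + ∫ x, g x ∂μ := by
      refine le_trans (le_of_eq ?_) c3
      ring
    linarith

/-! ## All directions -/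

theorem lip_harm (η : ℂ) : LipschitzWith (‖η‖₊ * 7) fun x : AddCircle (1 : ℝ) => (η * (fourier 1 x : ℂ)).re := by
  refine LipschitzWith.of_dist_le_mul fun x y => ?_
  have h1 := e_lip.dist_le_mul x y
  rw [dist_eq_norm] at h1
  rw [Real.dist_eq, ← Complex.sub_re, ← mul_sub]
  refine (Complex.abs_re_le_norm _).trans ?_
  rw [norm_mul]
  push_cast
  rw [mul_assoc]
  exact mul_le_mul_of_nonneg_left h1 (norm_nonneg _)

theorem concl_all {V : Fin 6 → ℂ} {O : Fin 6 → Measure (AddCircle (1 : ℝ))} (S : Six V O)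
    (hV : ∀ ζ : ℂ, ζ ≠ 0 → ∃ i : Fin 6, ∀ j, j ≠ i → j ≠ i + 1 →
      (ζ * V j).re < max (ζ * V i).re (ζ * V (i + 1)).re) :
    ∃ ε : NNReal, 0 < ε ∧ ∀ ζ : ℂ, ‖ζ‖ = 1 → ∀ g : AddCircle (1 : ℝ) → ℝ, LipschitzWith ε g → Concl O ζ g := by
  have one : ∀ ζ : ℂ, ζ ≠ 0 → ∃ ε : NNReal, 0 < ε ∧
      ∀ g : AddCircle (1 : ℝ) → ℝ, LipschitzWith ε g → Concl O ζ g := by
    intro ζ hζ
    obtain ⟨i, hi⟩ := hV ζ hζ
    rcases lt_trichotomy (ζ * V (i + 1)).re (ζ * V i).re with h | h | h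
    · rw [max_eq_left h.le] at hi
      refine concl_peak S ζ i fun j hj => ?_
      rcases eq_or_ne j (i + 1) with h' | h'
      · rw [h']
        exact h
      · exact hi j hj h'
    · rw [h, max_self] at hi
      exact concl_side S ζ i h hi
    · rw [max_eq_right h.le] at hi
      refine concl_peak S ζ (i + 1) fun j hj => ?_
      rcases eq_or_ne j i with h' | h'
      · rw [h']
        exact h
      · exact hi j h' hj
  have key : ∃ ε : NNReal, 0 < ε ∧ ∀ ζ ∈ Metric.sphere (0 : ℂ) 1,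
      ∀ g : AddCircle (1 : ℝ) → ℝ, LipschitzWith ε g → Concl O ζ g := by
    refine (isCompact_sphere (0 : ℂ) 1).induction_on
      (p := fun s => ∃ ε : NNReal, 0 < ε ∧ ∀ ζ ∈ s, ∀ g : AddCircle (1 : ℝ) → ℝ, LipschitzWith ε g → Concl O ζ g)
      ⟨1, one_pos, fun ζ h => absurd h (Set.notMem_empty ζ)⟩ ?_ ?_ ?_
    · rintro s t hst ⟨ε, hε, h⟩
      exact ⟨ε, hε, fun ζ hζ => h ζ (hst hζ)⟩
    · rintro s t ⟨ε₁, hε₁, h₁⟩ ⟨ε₂, hε₂, h₂⟩
      refine ⟨min ε₁ ε₂, lt_min hε₁ hε₂, ?_⟩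
      rintro ζ (hζ | hζ) g hg
      · exact h₁ ζ hζ g (hg.weaken (min_le_left _ _))
      · exact h₂ ζ hζ g (hg.weaken (min_le_right _ _))
    · intro ζ₀ hζ₀
      have hne : ζ₀ ≠ 0 := by
        rintro rfl
        simp at hζ₀
      obtain ⟨ε, hε, h⟩ := one ζ₀ hne
      have hε' : (0 : ℝ) < ε := hε
      refine ⟨Metric.ball ζ₀ (ε / 14), mem_nhdsWithin_of_mem_nhds (Metric.ball_mem_nhds _ (by positivity)),
        ε / 2, half_pos hε, fun ζ hζ g hg μ hμ => ?_⟩
      have hd : ‖ζ - ζ₀‖ < ε / 14 := by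
        rw [← dist_eq_norm]
        exact hζ
      have hl : LipschitzWith ε fun x => (((ζ - ζ₀) * (fourier 1 x : ℂ)).re + g x) := by
        refine ((lip_harm (ζ - ζ₀)).add hg).weaken ?_
        rw [← NNReal.coe_le_coe]
        push_cast
        linarith
      have e : ∀ x : AddCircle (1 : ℝ), (ζ₀ * (fourier 1 x : ℂ)).re + (((ζ - ζ₀) * (fourier 1 x : ℂ)).re + g x) =
          (ζ * (fourier 1 x : ℂ)).re + g x := by
        intro x
        rw [← add_assoc, ← Complex.add_re]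
        congr 2
        ring
      have h3 := h _ hl μ hμ
      simp only [e] at h3
      exact h3
  obtain ⟨ε, hε, h⟩ := key
  exact ⟨ε, hε, fun ζ hζ => h ζ (by simpa using hζ)⟩

end Pool.Agent.HexS
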