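import Pool.Agent.HexS.RetS

/-!
# Orbits as finite sets, and their preimages
-/

open MeasureTheory Complex ComplexConjugate
open Pool.Agent.Hex

namespace Pool.Agent.HexS

/-- The points `s * 2 ^ j / m`, `j < L`, of the circle. -/
noncomputable def zs (m L : ℕ) (s : ℤ) : Finset (AddCircle (1 : ℝ)) := by
  classical exact (Finset.range L).image fun j => s • ((2 ^ j) • ym m)

theorem mem_zs {m L : ℕ} {s : ℤ} {x : AddCircle (1 : ℝ)} :
    x ∈ zs m L s ↔ ∃ j < L, s • ((2 ^ j) • ym m) = x := by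
  classical
  unfold zs
  simp [Finset.mem_image]

/-- A finite orbit with its measure. -/
structure Orb (Z : Finset (AddCircle (1 : ℝ))) (L : ℕ) (ν : Measure (AddCircle (1 : ℝ))) : Prop where
  pos : 0 < L
  ne : Z.Nonempty
  two : ∀ z ∈ Z, (2 : ℕ) • z ∈ Z
  three : ∀ z ∈ Z, (3 : ℕ) • z ∈ Z
  mean : ∀ M : ℕ, 0 < M → ∀ g : AddCircle (1 : ℝ) → ℝ, ∀ z ∈ Z, av (L * M) g z = ∫ x, g x ∂ν
  zero : ∀ g : AddCircle (1 : ℝ) → ℝ, (∀ z ∈ Z, g z = 0) → ∫ x, g x ∂ν = 0

theorem e_inj {x y : AddCircle (1 : ℝ)} (h : (fourier 1 x : ℂ) = fourier 1 y) : x = y := by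
  rw [fourier_apply, fourier_apply, one_zsmul, one_zsmul] at h
  exact AddCircle.injective_toCircle one_ne_zero (Subtype.ext h)

theorem zs_all {m L : ℕ} {s : ℤ} (hL : 0 < L) (h : pt m L = rt m) (j : ℕ) : s • ((2 ^ j) • ym m) ∈ zs m L s := by
  have hper : ∀ i : ℕ, ((2 : ℕ) ^ (i + L)) • ym m = ((2 : ℕ) ^ i) • ym m := by
    intro i
    rw [pow_add, mul_smul, ym_per h]
  have hmul : ∀ t i : ℕ, ((2 : ℕ) ^ (i + L * t)) • ym m = ((2 : ℕ) ^ i) • ym m := by
    intro t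
    induction t with
    | zero => intro i; simp
    | succ t ih =>
      intro i
      rw [mul_add, mul_one, ← add_assoc, hper, ih]
  refine mem_zs.mpr ⟨j % L, Nat.mod_lt _ hL, ?_⟩
  congr 1
  rw [← hmul (j / L) (j % L), Nat.mod_add_div]

theorem orb_unif {m L a : ℕ} {s : ℤ} (hL : 0 < L) (h : pt m L = rt m) (h3 : rt m ^ 3 = pt m a)
    (hs : s = 1 ∨ s = -1) : Orb (zs m L s) L (unif m L s) where
  pos := hL
  ne := ⟨_, zs_all hL h 0⟩
  two := by
    intro z hz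
    obtain ⟨j, -, rfl⟩ := mem_zs.mp hz
    rw [smul_comm, smul_smul (2 : ℕ), ← pow_succ']
    exact zs_all hL h _
  three := by
    intro z hz
    obtain ⟨j, -, rfl⟩ := mem_zs.mp hz
    have h4 : (3 : ℕ) • ym m = (2 ^ a) • ym m := by
      apply e_inj
      rw [mea_nsmul, e_ym, ← h3]
      have := e_ym m 0
      rw [pow_zero, one_smul, pt_zero] at this
      rw [this]
    rw [smul_comm, smul_comm (3 : ℕ), h4, smul_smul, ← pow_add]
    exact zs_all hL h _
  mean := by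
    intro M hM g z hz
    obtain ⟨j, -, rfl⟩ := mem_zs.mp hz
    rcases hs with rfl | rfl
    · rw [one_smul, av_orb hL hM h, unif_om]
    · rw [unif_om_neg, ← av_orb hL hM h (fun x => g (-x)) j]
      unfold av
      simp only [neg_smul, one_smul, smul_neg]
  zero := by
    intro g hg
    rw [unif_int]
    have : ∑ j ∈ Finset.range L, g (s • ((2 ^ j) • ym m)) = 0 :=
      Finset.sum_eq_zero fun j _ => hg _ (zs_all hL h j)
    rw [this, smul_zero]

/-- An invariant measure carried by two orbits is a mixture. -/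
theorem orb_mix {Z₁ Z₂ : Finset (AddCircle (1 : ℝ))} {L₁ L₂ : ℕ} {ν₁ ν₂ : Measure (AddCircle (1 : ℝ))}
    (O₁ : Orb Z₁ L₁ ν₁) (O₂ : Orb Z₂ L₂ ν₂) {τ : Measure (AddCircle (1 : ℝ))} (hτ : Inv τ)
    (h : τ {x | x ∉ Z₁ ∧ x ∉ Z₂} = 0) : ∃ θ ∈ Set.Icc (0 : ℝ) 1, ∀ g : AddCircle (1 : ℝ) → ℝ, Continuous g →
      ∫ x, g x ∂τ = θ * ∫ x, g x ∂ν₁ + (1 - θ) * ∫ x, g x ∂ν₂ := by
  have hP := hτ.1
  have hm : MeasurableSet (Z₁ : Set (AddCircle (1 : ℝ))) := Z₁.measurableSet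
  refine ⟨τ.real Z₁, ⟨measureReal_nonneg, measureReal_le_one⟩, fun g hg => ?_⟩
  have hN : 0 < L₁ * L₂ := Nat.mul_pos O₁.pos O₂.pos
  rw [← int_av hτ hg hN]
  have hae : (fun x => av (L₁ * L₂) g x) =ᵐ[τ] fun x => ∫ x, g x ∂ν₂ +
      (Z₁ : Set (AddCircle (1 : ℝ))).indicator (fun _ => ∫ x, g x ∂ν₁ - ∫ x, g x ∂ν₂) x := by
    have hae1 : ∀ᵐ x ∂τ, ¬ (x ∉ Z₁ ∧ x ∉ Z₂) := by
      rw [ae_iff]
      simpa only [not_not] using h
    filter_upwards [hae1] with x hx
    by_cases h1 : x ∈ Z₁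
    · rw [Set.indicator_of_mem (Finset.mem_coe.mpr h1), O₁.mean L₂ O₂.pos g x h1]
      ring
    · have h2 : x ∈ Z₂ := by
        by_contra h2
        exact hx ⟨h1, h2⟩
      rw [Set.indicator_of_notMem (fun h => h1 (Finset.mem_coe.mp h)), mul_comm L₁ L₂, O₂.mean L₁ O₁.pos g x h2,
        add_zero]
  rw [integral_congr_ae hae, integral_add (integrable_const _) ((integrable_const _).indicator hm),
    integral_indicator_const _ hm, integral_const]
  simp only [probReal_univ, smul_eq_mul]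
  ring

/-- The preimage of a finite set under `x ↦ n x`. -/
theorem pre_exists {n : ℤ} (hn : n ≠ 0) (Z : Finset (AddCircle (1 : ℝ))) (hne : Z.Nonempty) :
    ∃ Y : Finset (AddCircle (1 : ℝ)), Y.Nonempty ∧ (∀ x, x ∈ Y ↔ n • x ∈ Z) ∧
      ∀ x, Metric.infDist x (Y : Set (AddCircle (1 : ℝ))) ≤ Metric.infDist (n • x) (Z : Set (AddCircle (1 : ℝ))) := by
  classical
  have hfin : {x : AddCircle (1 : ℝ) | n • x ∈ Z}.Finite := by
    refine (fin_fib hn (Z.image fun x => (fourier 1 x : ℂ))).subset ?_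
    intro x hx
    exact Finset.mem_image_of_mem _ hx
  have hnR : (n : ℝ) ≠ 0 := by exact_mod_cast hn
  have hn1 : (1 : ℝ) ≤ |(n : ℝ)| := by
    have : (1 : ℤ) ≤ |n| := Int.one_le_abs hn
    exact_mod_cast this
  have key : ∀ x : AddCircle (1 : ℝ), ∀ z ∈ Z, ∃ y : AddCircle (1 : ℝ), n • y = z ∧ dist x y ≤ dist (n • x) z := by
    intro x z _
    obtain ⟨r, hr, hrn⟩ : ∃ r : ℝ, ((r : ℝ) : AddCircle (1 : ℝ)) = n • x - z ∧ |r| = ‖n • x - z‖ := by
      generalize n • x - z = t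
      induction t using QuotientAddGroup.induction_on with
      | H u =>
        refine ⟨u - round u, ?_, ?_⟩
        · have h0 : (((round u : ℤ) : ℝ) : AddCircle (1 : ℝ)) = 0 :=
            (AddCircle.coe_eq_zero_iff (1 : ℝ)).mpr ⟨round u, by simp⟩
          rw [AddCircle.coe_sub, h0, sub_zero]
        · exact UnitAddCircle.norm_eq.symm
    refine ⟨x - ((r / n : ℝ) : AddCircle (1 : ℝ)), ?_, ?_⟩
    · rw [smul_sub, ← AddCircle.coe_zsmul]
      have : n • (r / n : ℝ) = r := by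
        rw [zsmul_eq_mul]
        field_simp
      rw [this, hr]
      abel
    · rw [dist_eq_norm, dist_eq_norm, sub_sub_cancel, ← hrn]
      have h1 : ‖((r / n : ℝ) : AddCircle (1 : ℝ))‖ ≤ |r / n| := by
        rw [UnitAddCircle.norm_eq]
        have := round_le (r / n) 0
        rwa [Int.cast_zero, sub_zero] at this
      refine h1.trans ?_
      rw [abs_div]
      exact div_le_self (abs_nonneg r) hn1
  refine ⟨hfin.toFinset, ?_, fun x => ?_, fun x => ?_⟩
  · obtain ⟨z, hz⟩ := hne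
    obtain ⟨y, hy, -⟩ := key 0 z hz
    exact ⟨y, hfin.mem_toFinset.mpr (by show n • y ∈ Z; rw [hy]; exact hz)⟩
  · exact hfin.mem_toFinset
  · refine (Metric.le_infDist (Finset.coe_nonempty.mpr hne)).mpr fun z hz => ?_
    obtain ⟨y, hy, hd⟩ := key x z (Finset.mem_coe.mp hz)
    refine (Metric.infDist_le_dist_of_mem ?_).trans hd
    refine Finset.mem_coe.mpr (hfin.mem_toFinset.mpr ?_)
    show n • y ∈ Z
    rw [hy]
    exact Finset.mem_coe.mp hz

end Pool.Agent.HexS
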