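import Pool.Agent.HexS.OpenS

/-!
# Retraction of an invariant measure to a finite invariant set
-/

open MeasureTheory Complex ComplexConjugate
open Pool.Agent.Hex

namespace Pool.Agent.HexS

/-- A multiplication which maps a finite set into itself is eventually periodic on it. -/
theorem ret_per (c : ℕ) (Y : Finset (AddCircle (1 : ℝ))) (h : ∀ y ∈ Y, c • y ∈ Y) :
    ∃ a N : ℕ, 0 < N ∧ ∀ y ∈ Y, (c ^ (a + N)) • y = (c ^ a) • y := by
  have hp : ∀ k : ℕ, ∀ y ∈ Y, (c ^ k) • y ∈ Y := by
    intro k
    induction k with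
    | zero =>
      intro y hy
      simpa using hy
    | succ k ih =>
      intro y hy
      rw [pow_succ, mul_smul]
      exact ih _ (h y hy)
  let f : ℕ → (Y → Y) := fun k y => ⟨(c ^ k) • y.1, hp k y.1 y.2⟩
  obtain ⟨k, l, hkl, he⟩ := Finite.exists_ne_map_eq_of_infinite f
  wlog hlt : k < l generalizing k l
  · exact this l k hkl.symm he.symm (by omega)
  refine ⟨k, l - k, by omega, fun y hy => ?_⟩
  have h1 := congrFun he ⟨y, hy⟩
  have h2 : (c ^ k) • y = (c ^ l) • y := congrArg Subtype.val h1
  rw [show k + (l - k) = l by omega, h2]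

/-- A measurable nearest point map to a finite set. -/
theorem ret_near (Y : Finset (AddCircle (1 : ℝ))) (hne : Y.Nonempty) :
    ∃ π : AddCircle (1 : ℝ) → AddCircle (1 : ℝ), Measurable π ∧ (∀ x, π x ∈ Y) ∧
      ∀ x, ∀ y ∈ Y, dist x (π x) ≤ dist x y := by
  classical
  induction hne using Finset.Nonempty.cons_induction with
  | singleton a =>
    refine ⟨fun _ => a, measurable_const, fun x => Finset.mem_singleton_self a, fun x y hy => ?_⟩
    rw [Finset.mem_singleton.mp hy]
  | cons a s ha hs ih =>
    obtain ⟨π, hπ, hmem, hnear⟩ := ih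
    refine ⟨fun x => if dist x a ≤ dist x (π x) then a else π x, ?_, ?_, ?_⟩
    · exact Measurable.ite (measurableSet_le (measurable_id.dist measurable_const) (measurable_id.dist hπ))
        measurable_const hπ
    · intro x
      show (if dist x a ≤ dist x (π x) then a else π x) ∈ Finset.cons a s ha
      split_ifs
      · exact Finset.mem_cons_self a s
      · exact Finset.mem_cons_of_mem (hmem x)
    · intro x y hy
      show dist x (if dist x a ≤ dist x (π x) then a else π x) ≤ dist x y
      rcases Finset.mem_cons.mp hy with h | h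
      · rw [h]
        split_ifs with h1
        · exact le_refl _
        · exact (not_le.mp h1).le
      · split_ifs with h1
        · exact h1.trans (hnear x y h)
        · exact hnear x y h

theorem int_mul {μ : Measure (AddCircle (1 : ℝ))} [IsProbabilityMeasure μ] {c : ℕ}
    (hc : MeasurePreserving (fun x : AddCircle (1 : ℝ) => c • x) μ μ) {g : AddCircle (1 : ℝ) → ℝ}
    (hg : Continuous g) (k : ℕ) : ∫ x, g ((c ^ k) • x) ∂μ = ∫ x, g x ∂μ := by
  induction k with
  | zero => simp
  | succ k ih =>
    rw [← ih]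
    have hcc : Continuous fun x : AddCircle (1 : ℝ) => g ((c ^ k) • x) := hg.comp (continuous_nsmul _)
    rw [← mea_int_comp hc (fun x => g ((c ^ k) • x)) hcc.aestronglyMeasurable]
    congr 1
    funext x
    rw [smul_smul, pow_succ]

theorem int_mul_two {μ : Measure (AddCircle (1 : ℝ))} (hμ : Inv μ) {g : AddCircle (1 : ℝ) → ℝ}
    (hg : Continuous g) (p q : ℕ) : ∫ x, g ((2 ^ p * 3 ^ q) • x) ∂μ = ∫ x, g x ∂μ := by
  obtain ⟨hP, hp2, hp3⟩ := hμ
  rw [← int_mul hp2 hg p]
  have hcc : Continuous fun x : AddCircle (1 : ℝ) => g ((2 ^ p) • x) := hg.comp (continuous_nsmul _)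
  rw [← int_mul hp3 hcc q]
  simp only [smul_smul]

/-- Retraction to a finite set which is mapped into itself by the multiplications by two and three. -/
theorem retract (Y : Finset (AddCircle (1 : ℝ))) (hne : Y.Nonempty) (h2 : ∀ y ∈ Y, (2 : ℕ) • y ∈ Y)
    (h3 : ∀ y ∈ Y, (3 : ℕ) • y ∈ Y) :
    ∃ C : ℝ, 0 ≤ C ∧ ∀ μ : Measure (AddCircle (1 : ℝ)), Inv μ → ∃ ρ : Measure (AddCircle (1 : ℝ)), Inv ρ ∧
      ρ {x | x ∉ Y} = 0 ∧ ∀ (K : NNReal) (g : AddCircle (1 : ℝ) → ℝ), LipschitzWith K g →
        |∫ x, g x ∂μ - ∫ x, g x ∂ρ| ≤ C * K * ∫ x, Metric.infDist x (Y : Set (AddCircle (1 : ℝ))) ∂μ := by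
  obtain ⟨a, N, hN, ha⟩ := ret_per 2 Y h2
  obtain ⟨b, M, hM, hb⟩ := ret_per 3 Y h3
  obtain ⟨π, hπ, hmem, hnear⟩ := ret_near Y hne
  have hinf : ∀ x, Metric.infDist x (Y : Set (AddCircle (1 : ℝ))) = dist x (π x) := by
    intro x
    refine le_antisymm (Metric.infDist_le_dist_of_mem (Finset.mem_coe.mpr (hmem x))) ?_
    exact (Metric.le_infDist (Finset.coe_nonempty.mpr hne)).mpr fun y hy => hnear x y (Finset.mem_coe.mp hy)
  refine ⟨2 ^ (a + N) * 3 ^ (b + M), by positivity, fun μ hμ => ?_⟩
  have hμ0 := hμ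
  obtain ⟨hP, hp2, hp3⟩ := hμ
  set c : ℕ → ℕ → ℕ := fun k j => 2 ^ (a + k) * 3 ^ (b + j) with hc
  set φ : ℕ → ℕ → AddCircle (1 : ℝ) → AddCircle (1 : ℝ) := fun k j x => c k j • π x with hφ
  have hφm : ∀ k j, Measurable (φ k j) := fun k j => (continuous_nsmul _).measurable.comp hπ
  set F : ℕ → ℕ → Measure (AddCircle (1 : ℝ)) := fun k j => μ.map (φ k j) with hF
  have hFP : ∀ k j, IsProbabilityMeasure (F k j) := fun k j =>
    Measure.isProbabilityMeasure_map (hφm k j).aemeasurable
  have hF2 : ∀ k j, F (k + N) j = F k j := by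
    intro k j
    simp only [hF]
    congr 1
    funext x
    simp only [hφ, hc]
    have e1 : 2 ^ (a + (k + N)) * 3 ^ (b + j) = (3 ^ (b + j) * 2 ^ k) * 2 ^ (a + N) := by ring
    rw [e1, mul_smul, ha _ (hmem x), ← mul_smul]
    congr 1
    ring
  have hF3 : ∀ k j, F k (j + M) = F k j := by
    intro k j
    simp only [hF]
    congr 1
    funext x
    simp only [hφ, hc]
    have e1 : 2 ^ (a + k) * 3 ^ (b + (j + M)) = (2 ^ (a + k) * 3 ^ j) * 3 ^ (b + M) := by ring
    rw [e1, mul_smul, hb _ (hmem x), ← mul_smul]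
    congr 1
    ring
  have hm2 : ∀ k j, (F k j).map (fun x : AddCircle (1 : ℝ) => (2 : ℕ) • x) = F (k + 1) j := by
    intro k j
    simp only [hF]
    rw [Measure.map_map (continuous_nsmul 2).measurable (hφm k j)]
    congr 1
    funext x
    simp only [Function.comp, hφ, hc]
    rw [← mul_smul]
    congr 1
    ring
  have hm3 : ∀ k j, (F k j).map (fun x : AddCircle (1 : ℝ) => (3 : ℕ) • x) = F k (j + 1) := by
    intro k j
    simp only [hF]
    rw [Measure.map_map (continuous_nsmul 3).measurable (hφm k j)]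
    congr 1
    funext x
    simp only [Function.comp, hφ, hc]
    rw [← mul_smul]
    congr 1
    ring
  set σ : Measure (AddCircle (1 : ℝ)) := ∑ k ∈ Finset.range N, ∑ j ∈ Finset.range M, F k j with hσ
  have hmap2 : σ.map (fun x : AddCircle (1 : ℝ) => (2 : ℕ) • x) = σ := by
    have hmm : Measurable fun x : AddCircle (1 : ℝ) => (2 : ℕ) • x := (continuous_nsmul 2).measurable
    rw [hσ, Measure.map_finset_sum hmm.aemeasurable]
    rw [← fin_shift (fun k => ∑ j ∈ Finset.range M, F k j) N (fun k => by simp only [hF2]) 1]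
    refine Finset.sum_congr rfl fun k _ => ?_
    rw [Measure.map_finset_sum hmm.aemeasurable]
    exact Finset.sum_congr rfl fun j _ => hm2 k j
  have hmap3 : σ.map (fun x : AddCircle (1 : ℝ) => (3 : ℕ) • x) = σ := by
    have hmm : Measurable fun x : AddCircle (1 : ℝ) => (3 : ℕ) • x := (continuous_nsmul 3).measurable
    rw [hσ, Measure.map_finset_sum hmm.aemeasurable]
    refine Finset.sum_congr rfl fun k _ => ?_
    rw [Measure.map_finset_sum hmm.aemeasurable, ← fin_shift (fun j => F k j) M (fun j => hF3 k j) 1]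
    exact Finset.sum_congr rfl fun j _ => hm3 k j
  have hNM : 0 < N * M := Nat.mul_pos hN hM
  have huniv : σ Set.univ = (N * M : ℕ) := by
    rw [hσ, Measure.finsetSum_apply]
    simp only [Measure.finsetSum_apply, measure_univ]
    simp
  have hNe : ((N * M : ℕ) : ENNReal) ≠ 0 := by exact_mod_cast hNM.ne'
  have hNt : ((N * M : ℕ) : ENNReal) ≠ ⊤ := ENNReal.natCast_ne_top _
  refine ⟨((N * M : ℕ) : ENNReal)⁻¹ • σ, ⟨⟨?_⟩, ⟨(continuous_nsmul 2).measurable, ?_⟩,
    ⟨(continuous_nsmul 3).measurable, ?_⟩⟩, ?_, ?_⟩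
  · rw [Measure.smul_apply, huniv, smul_eq_mul, ENNReal.inv_mul_cancel hNe hNt]
  · rw [Measure.map_smul, hmap2]
  · rw [Measure.map_smul, hmap3]
  · have h0 : σ {x | x ∉ Y} = 0 := by
      rw [hσ, Measure.finsetSum_apply]
      refine Finset.sum_eq_zero fun k _ => ?_
      rw [Measure.finsetSum_apply]
      refine Finset.sum_eq_zero fun j _ => ?_
      have hms : MeasurableSet {x : AddCircle (1 : ℝ) | x ∉ Y} := Y.measurableSet.compl
      rw [hF, Measure.map_apply (hφm k j) hms]
      have hpow2 : ∀ k : ℕ, ∀ y ∈ Y, (2 ^ k) • y ∈ Y := by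
        intro k
        induction k with
        | zero =>
          intro y hy
          simpa using hy
        | succ k ih =>
          intro y hy
          rw [pow_succ, mul_smul]
          exact ih _ (h2 y hy)
      have hpow3 : ∀ k : ℕ, ∀ y ∈ Y, (3 ^ k) • y ∈ Y := by
        intro k
        induction k with
        | zero =>
          intro y hy
          simpa using hy
        | succ k ih =>
          intro y hy
          rw [pow_succ, mul_smul]
          exact ih _ (h3 y hy)
      have : φ k j ⁻¹' {x | x ∉ Y} = ∅ := by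
        ext x
        simp only [Set.mem_preimage, Set.mem_ofPred_eq, Set.mem_empty_iff_false, iff_false, not_not, hφ, hc]
        rw [mul_smul]
        exact hpow2 _ _ (hpow3 _ _ (hmem x))
      rw [this, measure_empty]
    rw [Measure.smul_apply, h0, smul_zero]
  · intro K g hg
    have hgc := hg.continuous
    have hNMR : (0 : ℝ) < (N * M : ℕ) := by exact_mod_cast hNM
    have hρ : ∫ x, g x ∂(((N * M : ℕ) : ENNReal)⁻¹ • σ) = ((N * M : ℕ) : ℝ)⁻¹ *
        ∑ k ∈ Finset.range N, ∑ j ∈ Finset.range M, ∫ x, g (c k j • π x) ∂μ := by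
      rw [integral_smul_measure, ENNReal.toReal_inv, ENNReal.toReal_natCast, smul_eq_mul, hσ,
        integral_finsetSum_measure]
      · congr 1
        refine Finset.sum_congr rfl fun k _ => ?_
        rw [integral_finsetSum_measure]
        · refine Finset.sum_congr rfl fun j _ => ?_
          rw [hF, integral_map (hφm k j).aemeasurable hgc.aestronglyMeasurable]
        · intro j _
          exact mea_integrable hgc
      · intro k _
        rw [integrable_finsetSum_measure]
        intro j _
        exact mea_integrable hgc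
    have hμI : ∫ x, g x ∂μ = ((N * M : ℕ) : ℝ)⁻¹ *
        ∑ k ∈ Finset.range N, ∑ j ∈ Finset.range M, ∫ x, g (c k j • x) ∂μ := by
      have : ∀ k j, ∫ x, g (c k j • x) ∂μ = ∫ x, g x ∂μ := fun k j => int_mul_two hμ0 hgc _ _
      simp only [this, Finset.sum_const, Finset.card_range, nsmul_eq_mul]
      push_cast at hNMR ⊢
      have h1 : (N : ℝ) ≠ 0 := by positivity
      have h2 : (M : ℝ) ≠ 0 := by positivity
      field_simp
    have hdi : Integrable (fun x => dist x (π x)) μ := by
      have : (fun x => dist x (π x)) = fun x => Metric.infDist x (Y : Set (AddCircle (1 : ℝ))) := by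
        funext x
        exact (hinf x).symm
      rw [this]
      exact mea_integrable (Metric.continuous_infDist_pt _)
    have hterm : ∀ k ∈ Finset.range N, ∀ j ∈ Finset.range M,
        |∫ x, g (c k j • x) ∂μ - ∫ x, g (c k j • π x) ∂μ| ≤
          2 ^ (a + N) * 3 ^ (b + M) * K * ∫ x, dist x (π x) ∂μ := by
      intro k hk j hj
      have i1 : Integrable (fun x => g (c k j • x)) μ := mea_integrable (hgc.comp (continuous_nsmul _))
      have i2 : Integrable (fun x => g (c k j • π x)) μ := by
        have := (mea_integrable (μ := F k j) hgc)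
        exact (integrable_map_measure hgc.aestronglyMeasurable (hφm k j).aemeasurable).mp this
      rw [← integral_sub i1 i2]
      refine abs_integral_le_integral_abs.trans ?_
      rw [← integral_const_mul]
      refine integral_mono (i1.sub i2).abs (hdi.const_mul _) fun x => ?_
      have h4 := hg.dist_le_mul (c k j • x) (c k j • π x)
      rw [Real.dist_eq] at h4
      have h5 : dist (c k j • x) (c k j • π x) ≤ c k j * dist x (π x) := by
        rw [dist_eq_norm, dist_eq_norm, ← smul_sub]
        exact norm_nsmul_le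
      have h6 : ((c k j : ℕ) : ℝ) ≤ 2 ^ (a + N) * 3 ^ (b + M) := by
        simp only [hc]
        push_cast
        have h7 : (2 : ℝ) ^ (a + k) ≤ 2 ^ (a + N) :=
          pow_le_pow_right₀ (by norm_num) (by have := Finset.mem_range.mp hk; omega)
        have h8 : (3 : ℝ) ^ (b + j) ≤ 3 ^ (b + M) :=
          pow_le_pow_right₀ (by norm_num) (by have := Finset.mem_range.mp hj; omega)
        gcongr
      calc |g (c k j • x) - g (c k j • π x)| ≤ K * dist (c k j • x) (c k j • π x) := h4
        _ ≤ K * (c k j * dist x (π x)) := by gcongr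
        _ ≤ K * ((2 ^ (a + N) * 3 ^ (b + M)) * dist x (π x)) := by gcongr
        _ = 2 ^ (a + N) * 3 ^ (b + M) * K * dist x (π x) := by ring
    simp only [hinf]
    rw [hρ, hμI, ← mul_sub, ← Finset.sum_sub_distrib]
    simp only [← Finset.sum_sub_distrib]
    rw [abs_mul, abs_of_pos (inv_pos.mpr hNMR), inv_mul_le_iff₀ hNMR]
    refine (Finset.abs_sum_le_sum_abs _ _).trans ?_
    refine (Finset.sum_le_sum fun k hk => (Finset.abs_sum_le_sum_abs _ _).trans
      (Finset.sum_le_sum fun j hj => hterm k hk j hj)).trans (le_of_eq ?_)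
    simp only [Finset.sum_const, Finset.card_range, nsmul_eq_mul]
    push_cast
    ring

end Pool.Agent.HexS
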