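import Pool.Agent.HexS.DynS
open MeasureTheory Complex ComplexConjugate Polynomial
open Pool.Agent.Hex
namespace Pool.Agent.HexS

theorem circ_norm (t : AddCircle (1 : ℝ)) : ‖t‖ ≤ ‖(fourier 1 t : ℂ) - 1‖ := by
  induction t using QuotientAddGroup.induction_on with
  | H x =>
    have h1 : ‖((x : ℝ) : AddCircle (1 : ℝ))‖ = |x - round x| := UnitAddCircle.norm_eq
    have h2 : (fourier 1 ((x : ℝ) : AddCircle (1 : ℝ)) : ℂ) = Complex.exp (2 * Real.pi * Complex.I * x) := by
      rw [fourier_coe_apply]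
      congr 1
      push_cast
      ring
    change ‖((x : ℝ) : AddCircle (1 : ℝ))‖ ≤ ‖(fourier 1 ((x : ℝ) : AddCircle (1 : ℝ)) : ℂ) - 1‖
    rw [h1, h2]
    set r : ℝ := x - round x with hr
    have hr2 : |r| ≤ 1 / 2 := abs_sub_round x
    have h3 : Complex.exp (2 * Real.pi * Complex.I * x) = Complex.exp (Complex.I * ((2 * Real.pi * r : ℝ) : ℂ)) := by
      have : (2 * Real.pi * Complex.I * x : ℂ) = Complex.I * ((2 * Real.pi * r : ℝ) : ℂ) + (round x : ℤ) * (2 * Real.pi * Complex.I) := by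
        rw [hr]
        push_cast
        ring
      rw [this, Complex.exp_add, Complex.exp_int_mul_two_pi_mul_I, mul_one]
    rw [h3, Complex.norm_exp_I_mul_ofReal_sub_one]
    have h4 : 2 * Real.pi * r / 2 = Real.pi * r := by ring
    rw [h4, norm_mul, Real.norm_eq_abs, Real.norm_eq_abs, abs_two]
    have h5 : |Real.sin (Real.pi * r)| = Real.sin (Real.pi * |r|) := by
      have hp := Real.pi_pos
      rcases abs_cases r with ⟨h, h0⟩ | ⟨h, h0⟩
      · rw [h, abs_of_nonneg]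
        apply Real.sin_nonneg_of_nonneg_of_le_pi (by positivity)
        rw [h] at hr2
        nlinarith
      · rw [h, mul_neg, Real.sin_neg, abs_of_nonpos]
        have : 0 ≤ Real.sin (Real.pi * (-r)) := by
          apply Real.sin_nonneg_of_nonneg_of_le_pi (by nlinarith)
          rw [h] at hr2
          nlinarith
        rw [mul_neg, Real.sin_neg] at this
        linarith
    rw [h5]
    have h6 := Real.mul_le_sin (x := Real.pi * |r|) (by positivity) (by nlinarith [Real.pi_pos])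
    have h7 : 2 / Real.pi * (Real.pi * |r|) = 2 * |r| := by
      field_simp
    rw [h7] at h6
    linarith [abs_nonneg r]

theorem circ_dist (x y : AddCircle (1 : ℝ)) : dist x y ≤ ‖(fourier 1 x : ℂ) - fourier 1 y‖ := by
  rw [dist_eq_norm]
  refine (circ_norm (x - y)).trans (le_of_eq ?_)
  have h : (fourier 1 x : ℂ) = fourier 1 (x - y) * fourier 1 y := by
    rw [fourier_apply, fourier_apply, fourier_apply, one_zsmul, one_zsmul, one_zsmul, ← Circle.coe_mul,
      ← AddCircle.toCircle_add, sub_add_cancel]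
  rw [h]
  have h2 : (fourier 1 (x - y) : ℂ) * fourier 1 y - fourier 1 y = (fourier 1 (x - y) - 1) * fourier 1 y := by ring
  rw [h2, norm_mul, mea_norm, mul_one]

/-! ## Orbits and orbit means -/

/-- The point `1 / m` of the circle. -/
noncomputable def ym (m : ℕ) : AddCircle (1 : ℝ) := ((1 / m : ℝ) : AddCircle (1 : ℝ))

/-- The mean of `g` over the points `2 ^ j / m`, `j < L`. -/
noncomputable def om (m L : ℕ) (g : AddCircle (1 : ℝ) → ℝ) : ℝ :=
  (∑ j ∈ Finset.range L, g ((2 ^ j) • ym m)) / L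

theorem e_ym (m j : ℕ) : (fourier 1 ((2 ^ j) • ym m) : ℂ) = pt m j := by
  rw [mea_nsmul]
  unfold pt rt ym
  congr 1
  rw [fourier_coe_apply]
  congr 1
  push_cast
  ring

theorem ym_per {m L : ℕ} (h : pt m L = rt m) : (2 ^ L) • ym m = ym m := by
  have h1 : (fourier 1 ((2 ^ L) • ym m) : ℂ) = fourier 1 (ym m) := by
    rw [e_ym, h, ← pt_zero, ← e_ym, pow_zero, one_smul]
  rw [fourier_apply, fourier_apply, one_zsmul, one_zsmul] at h1
  exact AddCircle.injective_toCircle one_ne_zero (Subtype.ext h1)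

theorem sum_mul_period (f : ℕ → ℝ) (L M : ℕ) (hf : ∀ j, f (j + L) = f j) (a : ℕ) :
    ∑ k ∈ Finset.range (L * M), f (k + a) = M * ∑ k ∈ Finset.range L, f k := by
  induction M with
  | zero => simp
  | succ M ih =>
    have hm : ∀ i j, f (j + L * i) = f j := by
      intro i
      induction i with
      | zero => intro j; simp
      | succ i ih2 =>
        intro j
        rw [mul_add, mul_one, ← add_assoc, hf, ih2]
    rw [mul_add, mul_one, Finset.sum_range_add, ih]
    have : ∑ x ∈ Finset.range L, f (L * M + x + a) = ∑ x ∈ Finset.range L, f (x + a) := by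
      refine Finset.sum_congr rfl fun x _ => ?_
      rw [show L * M + x + a = (x + a) + L * M by ring, hm]
    rw [this, fin_shift f L hf a]
    push_cast
    ring

/-- The average of `g` along `N` doublings. -/
noncomputable def av (N : ℕ) (g : AddCircle (1 : ℝ) → ℝ) (x : AddCircle (1 : ℝ)) : ℝ :=
  (∑ k ∈ Finset.range N, g ((2 ^ k) • x)) / N

theorem av_orb {m L M : ℕ} (hL : 0 < L) (hM : 0 < M) (h : pt m L = rt m) (g : AddCircle (1 : ℝ) → ℝ) (j : ℕ) :
    av (L * M) g ((2 ^ j) • ym m) = om m L g := by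
  unfold av om
  have h1 : ∀ k, g ((2 ^ k) • ((2 ^ j) • ym m)) = (fun i => g ((2 ^ i) • ym m)) (k + j) := by
    intro k
    simp only [smul_smul, ← pow_add]
  simp only [h1]
  rw [sum_mul_period (fun i => g ((2 ^ i) • ym m)) L M ?_ j]
  · have hLR : (L : ℝ) ≠ 0 := by positivity
    have hMR : (M : ℝ) ≠ 0 := by positivity
    push_cast
    field_simp
  · intro i
    show g ((2 ^ (i + L)) • ym m) = g ((2 ^ i) • ym m)
    rw [pow_add, mul_smul, ym_per h]

theorem av_near {m L M : ℕ} (hL : 0 < L) (hM : 0 < M) (h : pt m L = rt m) {K : NNReal}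
    {g : AddCircle (1 : ℝ) → ℝ} (hg : LipschitzWith K g) (x : AddCircle (1 : ℝ)) :
    |av (L * M) g x - om m L g| ≤ K * 2 ^ (L * M) * dst (orb m L) (fourier 1 x : ℂ) := by
  have hne : (orb m L).Nonempty := ⟨_, pt_mem_orb hL h 0⟩
  obtain ⟨p, hp, hpd⟩ := dst_exists hne (fourier 1 x : ℂ)
  obtain ⟨j, -, rfl⟩ := Finset.mem_image.mp (by unfold orb at hp; exact hp)
  have hN : (0 : ℝ) < ((L * M : ℕ) : ℝ) := by exact_mod_cast Nat.mul_pos hL hM
  rw [← av_orb hL hM h g j]
  unfold av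
  rw [← sub_div, ← Finset.sum_sub_distrib, abs_div, abs_of_pos hN, div_le_iff₀ hN]
  refine (Finset.abs_sum_le_sum_abs _ _).trans ?_
  have hd : dist x ((2 ^ j) • ym m) ≤ dst (orb m L) (fourier 1 x : ℂ) := by
    rw [hpd, ← e_ym]
    exact circ_dist _ _
  have hterm : ∀ k ∈ Finset.range (L * M), |g ((2 ^ k) • x) - g ((2 ^ k) • ((2 ^ j) • ym m))| ≤
      K * 2 ^ (L * M) * dst (orb m L) (fourier 1 x : ℂ) := by
    intro k hk
    have h1 := hg.dist_le_mul ((2 ^ k) • x) ((2 ^ k) • ((2 ^ j) • ym m))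
    rw [Real.dist_eq] at h1
    have h2 : dist ((2 ^ k) • x) ((2 ^ k) • ((2 ^ j) • ym m)) ≤ 2 ^ k * dist x ((2 ^ j) • ym m) := by
      rw [dist_eq_norm, dist_eq_norm, ← smul_sub]
      have := norm_nsmul_le (n := 2 ^ k) (a := x - (2 ^ j) • ym m)
      push_cast at this
      exact this
    have h3 : (2 : ℝ) ^ k ≤ 2 ^ (L * M) := pow_le_pow_right₀ (by norm_num) (Finset.mem_range.mp hk).le
    calc _ ≤ (K : ℝ) * dist ((2 ^ k) • x) ((2 ^ k) • ((2 ^ j) • ym m)) := h1
      _ ≤ K * (2 ^ k * dist x ((2 ^ j) • ym m)) := by gcongr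
      _ ≤ K * (2 ^ (L * M) * dst (orb m L) (fourier 1 x : ℂ)) := by gcongr
      _ = _ := by ring
  refine (Finset.sum_le_sum hterm).trans (le_of_eq ?_)
  rw [Finset.sum_const, Finset.card_range, nsmul_eq_mul]
  ring

theorem int_pow {μ : Measure (AddCircle (1 : ℝ))} (hμ : Inv μ) {g : AddCircle (1 : ℝ) → ℝ} (hg : Continuous g)
    (k : ℕ) : ∫ x, g ((2 ^ k) • x) ∂μ = ∫ x, g x ∂μ := by
  obtain ⟨hP, hp2, -⟩ := hμ
  induction k with
  | zero => simp
  | succ k ih =>
    rw [← ih]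
    have hc : Continuous fun x : AddCircle (1 : ℝ) => g ((2 ^ k) • x) := hg.comp (continuous_nsmul _)
    rw [← mea_int_comp hp2 (fun x => g ((2 ^ k) • x)) hc.aestronglyMeasurable]
    congr 1
    funext x
    rw [smul_smul, pow_succ]

theorem int_av {μ : Measure (AddCircle (1 : ℝ))} (hμ : Inv μ) {g : AddCircle (1 : ℝ) → ℝ} (hg : Continuous g)
    {N : ℕ} (hN : 0 < N) : ∫ x, av N g x ∂μ = ∫ x, g x ∂μ := by
  have hP := hμ.1
  unfold av
  rw [integral_div, integral_finsetSum]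
  · simp only [int_pow hμ hg]
    rw [Finset.sum_const, Finset.card_range, nsmul_eq_mul]
    have : (N : ℝ) ≠ 0 := by positivity
    field_simp
  · intro k _
    exact mea_integrable (hg.comp (continuous_nsmul _))

theorem av_cont {g : AddCircle (1 : ℝ) → ℝ} (hg : Continuous g) (N : ℕ) : Continuous (av N g) := by
  unfold av
  exact (continuous_finsetSum _ fun k _ => hg.comp (continuous_nsmul _)).div_const _

/-! ## The sides -/

/-- Stability at the side from `v` to `w` for measures on the circle with their first coefficient. -/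
def Stab1 (v w : ℂ) (mv mw : (AddCircle (1 : ℝ) → ℝ) → ℝ) : Prop :=
  ∃ C : ℝ, 0 ≤ C ∧ ∀ μ : Measure (AddCircle (1 : ℝ)), Inv μ → ∃ θ ∈ Set.Icc (0 : ℝ) 1,
    ∀ (K : NNReal) (g : AddCircle (1 : ℝ) → ℝ), LipschitzWith K g →
      |∫ x, g x ∂μ - (θ * mv g + (1 - θ) * mw g)| ≤ C * K * Metric.infDist (coef μ 1) (segment ℝ v w)

theorem side_le (v w c : ℂ) : (conj (w - v) * (c - v)).im ≤ ‖w - v‖ * Metric.infDist c (segment ℝ v w) := by
  rcases eq_or_ne w v with h | h
  · rw [h]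
    simp
  have hpos : 0 < ‖w - v‖ := norm_pos_iff.mpr (sub_ne_zero.mpr h)
  rw [← div_le_iff₀' hpos]
  refine (Metric.le_infDist ⟨v, left_mem_segment ℝ v w⟩).mpr ?_
  intro q hq
  rw [segment_eq_image'] at hq
  obtain ⟨t, -, rfl⟩ := hq
  rw [div_le_iff₀' hpos, dist_eq_norm]
  have h1 : (conj (w - v) * (c - v)).im = (conj (w - v) * (c - (v + t • (w - v)))).im := by
    simp only [Complex.real_smul, mul_im, conj_re, conj_im, sub_re, sub_im, add_re, add_im, mul_re, ofReal_re,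
      ofReal_im]
    ring
  rw [h1]
  refine (Complex.abs_im_le_norm _ |>.trans' (le_abs_self _)).trans (le_of_eq ?_)
  rw [norm_mul, Complex.norm_conj]

theorem stab1_of_sideL {n₁ L₁ n₂ L₂ : ℕ} (hC : Cyc n₁ L₁ n₂ L₂) (h : SideL n₁ L₁ n₂ L₂) :
    Stab1 (vtx n₁ L₁) (vtx n₂ L₂) (om n₁ L₁) (om n₂ L₂) := by
  obtain ⟨C, hC0, hL⟩ := h
  refine ⟨2 ^ (L₁ * L₂) * C * ‖vtx n₂ L₂ - vtx n₁ L₁‖, by positivity, fun μ hμ => ?_⟩
  have hP := hμ.1
  have hφ : Continuous fun x : AddCircle (1 : ℝ) => (fourier 1 x : ℂ) := (fourier 1).continuous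
  set D₁ : AddCircle (1 : ℝ) → ℝ := fun x => dst (orb n₁ L₁) (fourier 1 x : ℂ) with hD₁
  set D₂ : AddCircle (1 : ℝ) → ℝ := fun x => dst (orb n₂ L₂) (fourier 1 x : ℂ) with hD₂
  set D : AddCircle (1 : ℝ) → ℝ := fun x => dst (orb n₁ L₁ ∪ orb n₂ L₂) (fourier 1 x : ℂ) with hD
  have hD₁c : Continuous D₁ := (dst_cont _).comp hφ
  have hD₂c : Continuous D₂ := (dst_cont _).comp hφ
  have hDc : Continuous D := (dst_cont _).comp hφ
  set A : Set (AddCircle (1 : ℝ)) := {x | D₁ x ≤ D₂ x} with hA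
  have hAm : MeasurableSet A := measurableSet_le hD₁c.measurable hD₂c.measurable
  have hne : (orb n₁ L₁ ∪ orb n₂ L₂).Nonempty := ⟨_, Finset.mem_union_left _ (pt_mem_orb hC.pos₁ hC.cyc₁ 0)⟩
  have hmin : ∀ x, D₁ x ≤ D x ∨ D₂ x ≤ D x := by
    intro x
    obtain ⟨p, hp, hpd⟩ := dst_exists hne (fourier 1 x : ℂ)
    rcases Finset.mem_union.mp hp with h | h
    · left
      show dst _ _ ≤ dst _ _
      rw [hpd]
      exact dst_le h _
    · right
      show dst _ _ ≤ dst _ _
      rw [hpd]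
      exact dst_le h _
  refine ⟨μ.real A, ⟨measureReal_nonneg, measureReal_le_one⟩, fun K g hg => ?_⟩
  have hgc := hg.continuous
  have hN : 0 < L₁ * L₂ := Nat.mul_pos hC.pos₁ hC.pos₂
  set G : AddCircle (1 : ℝ) → ℝ := fun x => om n₂ L₂ g + A.indicator (fun _ => om n₁ L₁ g - om n₂ L₂ g) x with hG
  have hind : Integrable (A.indicator fun _ => om n₁ L₁ g - om n₂ L₂ g) μ :=
    (integrable_const _).indicator hAm
  have hGi : Integrable G μ := (integrable_const _).add hind
  have hGint : ∫ x, G x ∂μ = μ.real A * om n₁ L₁ g + (1 - μ.real A) * om n₂ L₂ g := by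
    rw [hG, integral_add (integrable_const _) hind, integral_indicator_const _ hAm, integral_const]
    simp only [probReal_univ, smul_eq_mul]
    ring
  have hav : Integrable (av (L₁ * L₂) g) μ := mea_integrable (av_cont hgc _)
  have hpt : ∀ x, |av (L₁ * L₂) g x - G x| ≤ K * 2 ^ (L₁ * L₂) * D x := by
    intro x
    have hK : (0 : ℝ) ≤ K * 2 ^ (L₁ * L₂) := by positivity
    by_cases hx : x ∈ A
    · have h1 : G x = om n₁ L₁ g := by
        simp only [hG, Set.indicator_of_mem hx]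
        ring
      rw [h1]
      refine (av_near hC.pos₁ hC.pos₂ hC.cyc₁ hg x).trans ?_
      have h2 : D₁ x ≤ D x := by
        rcases hmin x with h | h
        · exact h
        · exact le_trans hx h
      exact mul_le_mul_of_nonneg_left h2 hK
    · have h1 : G x = om n₂ L₂ g := by
        simp only [hG, Set.indicator_of_notMem hx]
        ring
      rw [h1, mul_comm L₁ L₂]
      refine (av_near hC.pos₂ hC.pos₁ hC.cyc₂ hg x).trans ?_
      have h2 : D₂ x ≤ D x := by
        rcases hmin x with h | h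
        · exact le_trans (not_le.mp hx).le h
        · exact h
      rw [mul_comm L₂ L₁]
      exact mul_le_mul_of_nonneg_left h2 hK
  have h1 : ∫ x, g x ∂μ - (μ.real A * om n₁ L₁ g + (1 - μ.real A) * om n₂ L₂ g) =
      ∫ x, (av (L₁ * L₂) g x - G x) ∂μ := by
    rw [integral_sub hav hGi, int_av hμ hgc hN, hGint]
  rw [h1]
  have h2 : |∫ x, (av (L₁ * L₂) g x - G x) ∂μ| ≤ ∫ x, |av (L₁ * L₂) g x - G x| ∂μ :=
    abs_integral_le_integral_abs
  have h3 : ∫ x, |av (L₁ * L₂) g x - G x| ∂μ ≤ ∫ x, K * 2 ^ (L₁ * L₂) * D x ∂μ :=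
    integral_mono (hav.sub hGi).abs ((mea_integrable hDc).const_mul _) hpt
  rw [integral_const_mul] at h3
  have h4 := hL μ hμ
  have h5 := side_le (vtx n₁ L₁) (vtx n₂ L₂) (coef μ 1)
  calc |∫ x, (av (L₁ * L₂) g x - G x) ∂μ| ≤ K * 2 ^ (L₁ * L₂) * ∫ x, D x ∂μ := h2.trans h3
    _ ≤ K * 2 ^ (L₁ * L₂) * (C * (‖vtx n₂ L₂ - vtx n₁ L₁‖ *
        Metric.infDist (coef μ 1) (segment ℝ (vtx n₁ L₁) (vtx n₂ L₂)))) := by
        refine mul_le_mul_of_nonneg_left (h4.trans ?_) (by positivity)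
        exact mul_le_mul_of_nonneg_left h5 hC0
    _ = _ := by ring

end Pool.Agent.HexS
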